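import Pool.Agent.NilAff.Hall
import Pool.Agent.Lib.ARNil
import Pool.Agent.Lib.APoly

set_option autoImplicit false

/-!
# Artin–Rees for noetherian modules of a nilpotent group

Only ascending chains of stable subgroups are assumed to stabilise.

Paper proof of `exists_filtration'`: that of `exists_filtration` in Lib/ARNil.lean with `R = ℤ`, `M = B`
(as an abelian group with the action of `G`), replacing `IsNoetherian R M` by `Noe ⊤ B`: all the
chains and families of submodules used there consist of stable submodules: `exists_maximal` is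
applied to stable submodules `W'`, to `W ⊓ W'.comap b` (stable, since `b` commutes with the action on
`W`), and to stable `C`; in `nilp` use the chain `W ⊓ ker (a ^ k)`, which is stable by `pow_comm`; the
quotient `M ⧸ C` inherits the property. (One can restate the lemmas of ARNil with the hypothesis
`∀ P : Submodule R M → Prop, (∃ W, P W ∧ Stab ρ W) → ∃ W, P W ∧ Stab ρ W ∧ ∀ W', P W' → Stab ρ W' →
W ≤ W' → W' = W` in place of `[IsNoetherian R M]`.)
-/

namespace Pool.Agent.NilAff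

open Pool.Lib.PolySeq Pool.Lib.APoly

section noeth

open Pool.Lib.ARNil

variable {R : Type*} [CommRing R] {M : Type*} [AddCommGroup M] [Module R M]
  {𝒢 : Type*} [Group 𝒢]

/-- Nonempty families of stable submodules have maximal members. -/
def arNoe (ρ : 𝒢 →* Module.End R M) : Prop :=
  ∀ P : Submodule R M → Prop, (∃ W, Stab ρ W ∧ P W) →
    ∃ W, Stab ρ W ∧ P W ∧ ∀ W', Stab ρ W' → P W' → W ≤ W' → W' = W

variable {ρ : 𝒢 →* Module.End R M}

/-- Fitting's lemma with an essential submodule. -/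
lemma ar_nilp (hmx : arNoe ρ) {V : Submodule R M} (hV : ∀ g, ∀ v ∈ V, ρ g v = v)
    (hess : ∀ W : Submodule R M, Stab ρ W → W ⊓ V = ⊥ → W = ⊥) {W : Submodule R M}
    (hW : Stab ρ W) {z : 𝒢} (hcomm : ∀ g, ∀ w ∈ W, ρ z (ρ g w) = ρ g (ρ z w)) :
    ∃ k, ∀ w ∈ W, (dz ρ z ^ k) w = 0 := by
  set a : Module.End R M := dz ρ z with ha
  have hst : ∀ k, Stab ρ (W ⊓ LinearMap.ker (a ^ k)) := by
    intro k g w hw
    refine ⟨hW g w hw.1, ?_⟩
    have h1 : (a ^ k) w = 0 := hw.2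
    show ρ g w ∈ LinearMap.ker (a ^ k)
    rw [LinearMap.mem_ker, ha, ← (pow_comm hW hcomm k w hw.1).2 g, ← ha, h1, map_zero]
  have hmono : Monotone fun k => W ⊓ LinearMap.ker (a ^ k) := by
    apply monotone_nat_of_le_succ
    intro n x hx
    refine ⟨hx.1, ?_⟩
    have h1 : (a ^ n) x = 0 := hx.2
    show x ∈ LinearMap.ker (a ^ (n + 1))
    rw [LinearMap.mem_ker, pow_succ', Module.End.mul_apply, h1, map_zero]
  obtain ⟨U, -, ⟨k₀, rfl⟩, hmax⟩ := hmx (fun U => ∃ k, U = W ⊓ LinearMap.ker (a ^ k))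
    ⟨_, hst 0, 0, rfl⟩
  have hk : ∀ m, k₀ ≤ m → W ⊓ LinearMap.ker (a ^ m) = W ⊓ LinearMap.ker (a ^ k₀) :=
    fun m hm => hmax _ (hst m) ⟨m, rfl⟩ (hmono hm)
  set k := k₀ + 1 with hkdef
  have hkk : W ⊓ LinearMap.ker (a ^ (k + k)) = W ⊓ LinearMap.ker (a ^ k) := by
    rw [hk (k + k) (by omega), hk k (by omega)]
  refine ⟨k, ?_⟩
  have hY : (W.map (a ^ k)) = ⊥ := by
    apply hess
    · rintro g _ ⟨w, hw, rfl⟩
      rw [(pow_comm hW hcomm k w hw).2 g]
      exact ⟨_, hW g w hw, rfl⟩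
    · rw [eq_bot_iff]
      rintro v ⟨⟨w, hw, rfl⟩, hv⟩
      have h1 : a ((a ^ k) w) = 0 := by
        rw [ha, dz_apply, hV z _ hv, sub_self]
      have h2 : (a ^ (k + k)) w = 0 := by
        rw [show k + k = k₀ + 1 + k by rfl, add_assoc, pow_add, add_comm 1 k, pow_succ',
          Module.End.mul_apply, Module.End.mul_apply, h1, map_zero]
      have h3 : w ∈ W ⊓ LinearMap.ker (a ^ k) := by
        rw [← hkk]
        exact ⟨hw, h2⟩
      exact h3.2
  intro w hw
  have : (a ^ k) w ∈ W.map (a ^ k) := ⟨w, hw, rfl⟩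
  rw [hY] at this
  exact this

/-- The inductive step. -/
lemma ar_step (hmx : arNoe ρ) {V : Submodule R M} (hV : ∀ g, ∀ v ∈ V, ρ g v = v)
    (hess : ∀ W : Submodule R M, Stab ρ W → W ⊓ V = ⊥ → W = ⊥) (Z : Set 𝒢)
    (IH : ∀ W : Submodule R M, Stab ρ W → (∀ z ∈ Z, ∀ w ∈ W, ρ z w = w) → ∃ k, W ≤ Fl ρ ⊥ k)
    {W : Submodule R M} (hW : Stab ρ W)
    (hcomm : ∀ z ∈ Z, ∀ g, ∀ w ∈ W, ρ z (ρ g w) = ρ g (ρ z w)) : ∃ k, W ≤ Fl ρ ⊥ k := by
  -- the fixed points
  set W₁ : Submodule R M := W ⊓ ⨅ z : Z, LinearMap.ker (ρ z - 1) with hW₁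
  have hmem : ∀ w, w ∈ W₁ ↔ w ∈ W ∧ ∀ z ∈ Z, ρ z w = w := by
    intro w
    simp [hW₁, Submodule.mem_inf, Submodule.mem_iInf, sub_eq_zero]
  obtain ⟨k₁, hk₁⟩ : ∃ k, W₁ ≤ Fl ρ ⊥ k := by
    apply IH
    · intro g w hw
      rw [hmem] at hw ⊢
      refine ⟨hW g w hw.1, fun z hz => ?_⟩
      rw [hcomm z hz g w hw.1, hw.2 z hz]
    · intro z hz w hw
      exact ((hmem w).1 hw).2 z hz
  obtain ⟨W', hW's, ⟨hW'W, l, hl⟩, hmax⟩ := hmx
    (fun W' => W' ≤ W ∧ ∃ k, W' ≤ Fl ρ ⊥ k) ⟨⊥, stab_bot, bot_le, 0, bot_le⟩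
  by_cases hfin : W ≤ W'
  · exact ⟨l, hfin.trans hl⟩
  exfalso
  set B : Set (Module.End R M) := {b | (∀ w ∈ W, b w ∈ W) ∧
    (∀ g, ∀ w ∈ W, ρ g (b w) = b (ρ g w)) ∧ ¬ W ≤ W'.comap b} with hB
  have hBst : ∀ b ∈ B, Stab ρ (W ⊓ W'.comap b) := by
    intro b hb g w hw
    refine ⟨hW g w hw.1, ?_⟩
    have h1 : b w ∈ W' := hw.2
    show b (ρ g w) ∈ W'
    rw [← hb.2.1 g w hw.1]
    exact hW's g _ h1
  have h1B : (1 : Module.End R M) ∈ B := ⟨fun w hw => hw, fun g w _ => rfl, hfin⟩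
  obtain ⟨K, -, ⟨b, hb, rfl⟩, hKmax⟩ := hmx
    (fun K => ∃ b ∈ B, K = W ⊓ W'.comap b) ⟨_, hBst 1 h1B, 1, h1B, rfl⟩
  have hbz : ∀ z ∈ Z, ∀ w ∈ W, b (ρ z w - w) ∈ W' := by
    intro z hz
    by_contra hcon
    have hsub : ∀ w ∈ W, dz ρ z w ∈ W := fun w hw => by
      rw [dz_apply]
      exact W.sub_mem (hW z w hw) hw
    have hbB : b * dz ρ z ∈ B := by
      refine ⟨fun w hw => ?_, fun g w hw => ?_, fun hle => ?_⟩
      · rw [Module.End.mul_apply]
        exact hb.1 _ (hsub w hw)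
      · rw [Module.End.mul_apply, Module.End.mul_apply, hb.2.1 g _ (hsub w hw)]
        congr 1
        rw [dz_apply, dz_apply, map_sub, hcomm z hz g w hw]
      · apply hcon
        intro w hw
        exact hle hw
    have heq := hKmax _ (hBst _ hbB) ⟨_, hbB, rfl⟩ (by
      intro w hw
      rw [Submodule.mem_inf, Submodule.mem_comap] at hw ⊢
      refine ⟨hw.1, ?_⟩
      rw [Module.End.mul_apply, dz_apply, map_sub, ← hb.2.1 z w hw.1]
      exact W'.sub_mem (hW's z _ hw.2) hw.2)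
    have hback : ∀ w ∈ W, b (dz ρ z w) ∈ W' → b w ∈ W' := by
      intro w hw h
      have : w ∈ W ⊓ W'.comap (b * dz ρ z) := ⟨hw, h⟩
      rw [heq] at this
      exact this.2
    have hback2 : ∀ k, ∀ w ∈ W, b ((dz ρ z ^ k) w) ∈ W' → b w ∈ W' := by
      intro k
      induction k with
      | zero => intro w _ h; simpa using h
      | succ k ih =>
        intro w hw h
        apply ih w hw
        apply hback _ (pow_comm hW (hcomm z hz) k w hw).1
        rw [pow_succ', Module.End.mul_apply] at h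
        exact h
    obtain ⟨k, hk⟩ := ar_nilp hmx hV hess hW (hcomm z hz)
    apply hb.2.2
    intro w hw
    apply hback2 k w hw
    rw [hk w hw, map_zero]
    exact W'.zero_mem
  -- the larger unipotent submodule
  have hstab2 : Stab ρ (W.map b ⊔ W') := by
    intro g y hy
    obtain ⟨u, hu, v, hv, rfl⟩ := Submodule.mem_sup.1 hy
    obtain ⟨w, hw, rfl⟩ := hu
    rw [map_add, hb.2.1 g w hw]
    exact Submodule.add_mem _ (Submodule.mem_sup_left ⟨_, hW g w hw, rfl⟩)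
      (Submodule.mem_sup_right (hW's g v hv))
  have hW₂ := hmax (W.map b ⊔ W') hstab2 ⟨?_, ?_⟩ le_sup_right
  · apply hb.2.2
    intro w hw
    have : b w ∈ W.map b ⊔ W' := Submodule.mem_sup_left ⟨w, hw, rfl⟩
    rw [hW₂] at this
    exact this
  · apply sup_le _ hW'W
    rintro _ ⟨w, hw, rfl⟩
    exact hb.1 w hw
  · refine ⟨k₁ + l, sup_le ?_ (hl.trans (Fl_le stab_bot (by omega)))⟩
    rintro _ ⟨w, hw, rfl⟩
    apply Fl_Fl hk₁ l
    apply mem_Fl_of_sub hW Z hcomm (fun w hw h => (hmem w).2 ⟨hw, h⟩) l (b w) (hb.1 w hw)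
    intro z hz
    apply hl
    have := hbz z hz w hw
    rw [map_sub, ← hb.2.1 z w hw] at this
    exact this

/-- Essential extensions of trivial modules are unipotent. -/
theorem ar_unip (hmx : arNoe ρ) {V : Submodule R M} (hV : ∀ g, ∀ v ∈ V, ρ g v = v)
    (hess : ∀ W : Submodule R M, Stab ρ W → W ⊓ V = ⊥ → W = ⊥) (i : ℕ) :
    ∀ W : Submodule R M, Stab ρ W →
      (∀ z ∈ (⊤ : Subgroup 𝒢).lowerCentralSeries i, ∀ w ∈ W, ρ z w = w) →
      ∃ k, W ≤ Fl ρ ⊥ k := by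
  induction i with
  | zero =>
    intro W hW h
    refine ⟨1, fun w hw => ?_⟩
    rw [show (1 : ℕ) = 0 + 1 from rfl, mem_Fl_succ]
    intro g
    rw [h g (by simp) w hw, sub_self]
    exact Submodule.zero_mem _
  | succ i ih =>
    intro W hW h
    apply ar_step hmx hV hess ((⊤ : Subgroup 𝒢).lowerCentralSeries i : Set 𝒢) ih hW
    intro z hz g w hw
    have h1 : z * g * z⁻¹ * g⁻¹ ∈ (⊤ : Subgroup 𝒢).lowerCentralSeries (i + 1) := by
      rw [Subgroup.lowerCentralSeries_succ]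
      exact Subgroup.commutator_mem_commutator hz (Subgroup.mem_top g)
    have e : ρ z (ρ g w) = ρ (z * g * z⁻¹ * g⁻¹) (ρ g (ρ z w)) := by
      rw [← Module.End.mul_apply, ← map_mul, ← Module.End.mul_apply, ← map_mul,
        ← Module.End.mul_apply, ← map_mul]
      congr 2
      group
    rw [e, h _ h1 _ (hW g _ (hW z w hw))]

/-- **Artin–Rees type lemma** for nilpotent groups. -/
theorem ar_filtration [Group.IsNilpotent 𝒢] (ρ : 𝒢 →* Module.End R M) (hmx : arNoe ρ)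
    (V : Submodule R M) (hV : ∀ g, ∀ v ∈ V, ρ g v = v) :
    ∃ (F : ℕ → Submodule R M) (k : ℕ), F 0 ⊓ V = ⊥ ∧ (∀ i g, ∀ v ∈ F i, ρ g v ∈ F i) ∧
      (∀ i g, ∀ v ∈ F (i + 1), ρ g v - v ∈ F i) ∧ F k = ⊤ := by
  obtain ⟨C, hCs, hCV, hmax⟩ := hmx
    (fun C => C ⊓ V = ⊥) ⟨⊥, stab_bot, bot_inf_eq _⟩
  -- the action on the quotient
  let ρ' : 𝒢 →* Module.End R (M ⧸ C) :=
    { toFun := fun g => C.mapQ C (ρ g) (fun w hw => hCs g w hw)
      map_one' := by
        apply Submodule.linearMap_qext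
        ext x
        simp
      map_mul' := by
        intro g h
        apply Submodule.linearMap_qext
        ext x
        simp [Module.End.mul_apply] }
  have hρ' : ∀ g x, ρ' g (C.mkQ x) = C.mkQ (ρ g x) := by
    intro g x
    rfl
  have hcomap : ∀ W : Submodule R (M ⧸ C), Stab ρ' W → Stab ρ (W.comap C.mkQ) := by
    intro W hW g w hw
    rw [Submodule.mem_comap] at hw ⊢
    rw [← hρ']
    exact hW g _ hw
  have hmx' : arNoe ρ' := by
    rintro P ⟨W, hW, hPW⟩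
    obtain ⟨U, -, ⟨W0, rfl, hW0, hPW0⟩, hU⟩ := hmx
      (fun U => ∃ W : Submodule R (M ⧸ C), U = W.comap C.mkQ ∧ Stab ρ' W ∧ P W)
      ⟨_, hcomap W hW, W, rfl, hW, hPW⟩
    refine ⟨W0, hW0, hPW0, fun W' hW' hPW' hle => ?_⟩
    have h1 := hU _ (hcomap W' hW') ⟨W', rfl, hW', hPW'⟩ (Submodule.comap_mono hle)
    exact Submodule.comap_injective_of_surjective C.mkQ_surjective h1
  obtain ⟨c, hc⟩ := (Subgroup.nilpotent_iff_lowerCentralSeries (G := 𝒢)).1 inferInstance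
  have hun : ∃ k, (⊤ : Submodule R (M ⧸ C)) ≤ Fl ρ' ⊥ k := by
    apply ar_unip hmx' (V := V.map C.mkQ) ?_ ?_ c ⊤ (fun g w _ => Submodule.mem_top)
    · intro z hz w _
      rw [hc, Subgroup.mem_bot] at hz
      rw [hz, map_one]
      rfl
    · rintro g _ ⟨v, hv, rfl⟩
      rw [hρ', hV g v hv]
    · intro W hW hWV
      have h1 : W.comap C.mkQ = C := by
        apply hmax _ (hcomap W hW)
        · rw [eq_bot_iff]
          rintro v ⟨hv1, hv2⟩
          have h2 : C.mkQ v ∈ W ⊓ V.map C.mkQ := ⟨hv1, v, hv2, rfl⟩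
          rw [hWV, Submodule.mem_bot, ← LinearMap.mem_ker, Submodule.ker_mkQ] at h2
          rw [← hCV]
          exact ⟨h2, hv2⟩
        · intro x hx
          rw [Submodule.mem_comap]
          have : C.mkQ x = 0 := by rw [← LinearMap.mem_ker, Submodule.ker_mkQ]; exact hx
          rw [this]
          exact W.zero_mem
      rw [eq_bot_iff]
      intro w hw
      obtain ⟨x, rfl⟩ := C.mkQ_surjective w
      have h2 : x ∈ C := by rw [← h1]; exact hw
      rw [Submodule.mem_bot, ← LinearMap.mem_ker, Submodule.ker_mkQ]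
      exact h2
  obtain ⟨k, hk⟩ := hun
  refine ⟨fun i => (Fl ρ' ⊥ i).comap C.mkQ, k, ?_, ?_, ?_, ?_⟩
  · show Submodule.comap C.mkQ ⊥ ⊓ V = ⊥
    rw [Submodule.comap_bot, Submodule.ker_mkQ, hCV]
  · intro i g v hv
    rw [Submodule.mem_comap] at hv ⊢
    rw [← hρ']
    exact Fl_stab stab_bot i g _ hv
  · intro i g v hv
    rw [Submodule.mem_comap] at hv ⊢
    rw [map_sub, ← hρ']
    exact mem_Fl_succ.1 hv g
  · rw [eq_top_iff]
    intro x _
    exact hk Submodule.mem_top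

end noeth

variable {G V : Type*} [Group G] [AddCommGroup V] [DistribMulAction G V]

/-- The action on a stable subgroup. -/
def arRho (B : AddSubgroup V) (hB : Stb (⊤ : Subgroup G) B) : G →* Module.End ℤ B where
  toFun g := (AddMonoidHom.mk' (fun b : B => (⟨g • (b : V), hB g (Subgroup.mem_top g) b b.2⟩ : B))
    (fun a b => Subtype.ext (smul_add g (a : V) (b : V)))).toIntLinearMap
  map_one' := by
    apply LinearMap.ext
    intro b
    apply Subtype.ext
    exact one_smul G (b : V)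
  map_mul' g h := by
    apply LinearMap.ext
    intro b
    apply Subtype.ext
    exact mul_smul g h (b : V)

theorem arRho_apply (B : AddSubgroup V) (hB : Stb (⊤ : Subgroup G) B) (g : G) (b : B) :
    ((arRho B hB g b : B) : V) = g • (b : V) := rfl

theorem arNoe_of_Noe (B : AddSubgroup V) (hB : Stb (⊤ : Subgroup G) B)
    (hN : Noe (⊤ : Subgroup G) B) : arNoe (arRho B hB) := by
  classical
  rintro P ⟨W, hW, hPW⟩
  let S := {W : Submodule ℤ B // Pool.Lib.ARNil.Stab (arRho B hB) W}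
  have hwf : WellFoundedGT S := by
    rw [wellFoundedGT_iff_monotone_chain_condition]
    intro a
    obtain ⟨N, hN'⟩ := hN (fun n => ((a n).1.toAddSubgroup).map B.subtype)
      (fun i j hij => AddSubgroup.map_mono (fun x hx => (a.monotone hij) hx))
      (fun n => by
        rintro _ ⟨b, -, rfl⟩
        exact b.2)
      (fun n g _ => by
        rintro _ ⟨b, hb, rfl⟩
        exact ⟨arRho B hB g b, (a n).2 g b hb, rfl⟩)
    refine ⟨N, fun m hm => ?_⟩
    apply Subtype.ext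
    have h1 := hN' m hm
    have h2 := AddSubgroup.map_injective (f := B.subtype) (fun x y h => Subtype.ext h) h1
    ext x
    have h3 : x ∈ (a m).1.toAddSubgroup ↔ x ∈ (a N).1.toAddSubgroup := by rw [h2]
    exact h3.symm
  obtain ⟨W0, hW0, hmin⟩ := hwf.wf.has_min {W : S | P W.1} ⟨⟨W, hW⟩, hPW⟩
  refine ⟨W0.1, W0.2, hW0, fun W' hW' hPW' hle => ?_⟩
  by_contra hne
  have h1 := hmin ⟨W', hW'⟩ hPW'
  apply h1
  have h2 : W0.1 < W' := lt_of_le_of_ne hle (Ne.symm hne)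
  exact h2

theorem exists_filtration' [Group.IsNilpotent G] (B C : AddSubgroup V)
    (hB : Stb (⊤ : Subgroup G) B) (hN : Noe (⊤ : Subgroup G) B)
    (hC : ∀ g : G, ∀ v ∈ C, g • v = v) :
    ∃ (F : ℕ → AddSubgroup V) (k : ℕ), F 0 ⊓ C = ⊥ ∧ (∀ i, ∀ g : G, ∀ v ∈ F i, g • v ∈ F i) ∧
      (∀ i, ∀ g : G, ∀ v ∈ F (i + 1), g • v - v ∈ F i) ∧ B ≤ F k := by
  obtain ⟨F, k, h0, h1, h2, h3⟩ := ar_filtration (arRho B hB) (arNoe_of_Noe B hB hN)
    (AddSubgroup.toIntSubmodule (C.comap B.subtype)) (fun g v hv => by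
      apply Subtype.ext
      rw [arRho_apply]
      exact hC g _ hv)
  refine ⟨fun i => ((F i).toAddSubgroup).map B.subtype, k, ?_, ?_, ?_, ?_⟩
  · rw [eq_bot_iff]
    rintro v ⟨⟨b, hb, rfl⟩, hv⟩
    have h4 : b ∈ F 0 ⊓ AddSubgroup.toIntSubmodule (C.comap B.subtype) := ⟨hb, hv⟩
    rw [h0, Submodule.mem_bot] at h4
    rw [h4]
    exact AddSubgroup.mem_bot.mpr rfl
  · rintro i g _ ⟨b, hb, rfl⟩
    exact ⟨arRho B hB g b, h1 i g b hb, rfl⟩
  · rintro i g _ ⟨b, hb, rfl⟩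
    exact ⟨arRho B hB g b - b, h2 i g b hb, rfl⟩
  · intro b hb
    refine ⟨⟨b, hb⟩, ?_, rfl⟩
    show (⟨b, hb⟩ : B) ∈ F k
    rw [h3]
    exact Submodule.mem_top

/-- polynomial functions with values in a second subgroup -/
lemma ar_PD_inf {C D : AddSubgroup V} {k : ℕ} : ∀ {p : ℕ → V},
    PD C k p → (∀ n, p n ∈ D) → PD (C ⊓ D) k p := by
  induction k with
  | zero => intro p hp hD n; exact ⟨hp n, hD n⟩
  | succ k ih => intro p hp hD; exact ih hp fun n => D.sub_mem (hD _) (hD _)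

/-- Polynomial phases. Proof: as the second half of `phase_poly` in Lib/AffineAlg.lean: `hall` for the
subgroup generated by the `f j`, `exists_filtration'`, `isP_smul` (Lib/APoly.lean) shows that
`n ↦ g j n • f j` is `IsP (F 0)`; then `PD_inf` (Lib/AffineAlg.lean; copy it) and `F 0 ⊓ C = ⊥`. -/
theorem phase [Group.IsNilpotent G] (T : Set G) (hT : T.Finite) (hgen : Subgroup.closure T = ⊤)
    (C : AddSubgroup V) (hC : ∀ g : G, ∀ v ∈ C, g • v = v) {m : ℕ} (f : Fin m → V)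
    (g : Fin m → ℕ → G) (s : ℕ) (hg : ∀ j, Dv s (g j))
    (hconst : ∀ n, ∑ j, g j n • f j - ∑ j, g j 0 • f j ∈ C) :
    ∃ k, PD ⊥ k (fun n => ∑ j, g j n • f j - ∑ j, g j 0 • f j) := by
  obtain ⟨B, hAB, hB, hN⟩ := hall T hT hgen (AddSubgroup.closure (Set.range f))
    ⟨(Set.finite_range f).toFinset, by rw [Set.Finite.coe_toFinset]⟩
  obtain ⟨F, k, h0, hstab, hdrop, htop⟩ := exists_filtration' B C hB hN hC
  have h1 : ∀ j, IsP (F 0) (fun n => g j n • f j) := by
    intro j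
    apply isP_smul F (fun i g v hv => hstab i g v hv) (fun i g v hv => hdrop i g v hv) k s (g j)
      (hg j) (fun _ => f j) (IsP.const _)
    intro n
    exact htop (hAB (AddSubgroup.subset_closure ⟨j, rfl⟩))
  have h2 : IsP (F 0) (fun n => ∑ j, g j n • f j - ∑ j, g j 0 • f j) :=
    (IsP.sum Finset.univ _ fun j _ => h1 j).sub (IsP.const _)
  obtain ⟨l, hl⟩ := h2
  have h3 := ar_PD_inf (D := C) hl hconst
  rw [h0] at h3
  exact ⟨l, h3⟩

end Pool.Agent.NilAff
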