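import Pool.Agent.PolyMax.Closure
import Pool.Agent.Lib.ErgodicAverages3

set_option autoImplicit false

/-!
# The closure principle for products, with maximal inequalities in some slots

`multi_closure4` combines `multi_closure3` (two sided approximation) and `multi_closureW`
(maximal inequality).
-/

open Finset MeasureTheory Filter Topology
open scoped ENNReal NNReal

namespace Pool.Agent.NilAff

open Pool.Lib.Erg Pool.PolyMax

variable {X : Type*} [MeasurableSpace X] {μ : Measure X}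

theorem multi_closure4 [IsFiniteMeasure μ] {m : ℕ} (τ : Fin m → ℕ → X → X)
    (hτ : ∀ j n, MeasurePreserving (τ j n) μ μ) (D : Set (X → ℂ)) (hone : (fun _ => 1) ∈ D)
    (hD : ∀ φ ∈ D, AEStronglyMeasurable φ μ ∧ ∃ C : ℝ, ∀ x, ‖φ x‖ ≤ C)
    (hdense : ∀ f : X → ℂ, MemLp f ∞ μ → ∀ ε : ℝ, 0 < ε →
      ∃ φ ∈ D, ∫ x, ‖f x - φ x‖ ^ 2 ∂μ ≤ ε)
    (hconv : ∀ φ : Fin m → X → ℂ, (∀ j, φ j ∈ D) →
      ∀ᵐ x ∂μ, ∃ L, Tendsto (avg fun n => ∏ j, φ j (τ j n x)) atTop (𝓝 L))
    (f : Fin m → X → ℂ)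
    (hf : ∀ j, (∀ ε : ℝ, 0 < ε → ∃ φ ∈ D, ∃ v : X → ℝ, (fun x => (v x : ℂ)) ∈ D ∧
        (∀ x, ‖f j x - φ x‖ ≤ v x) ∧ ∫ x, v x ∂μ ≤ ε) ∨
      (MemLp (f j) ∞ μ ∧ MaxL2 (τ j) μ)) :
    ∀ᵐ x ∂μ, ∃ L, Tendsto (avg fun n => ∏ j, f j (τ j n x)) atTop (𝓝 L) := by
  classical
  have hbd : ∀ (j : Fin m) (g : X → ℂ), ((∀ ε : ℝ, 0 < ε → ∃ φ ∈ D, ∃ v : X → ℝ,
        (fun x => (v x : ℂ)) ∈ D ∧ (∀ x, ‖g x - φ x‖ ≤ v x) ∧ ∫ x, v x ∂μ ≤ ε) ∨
      MemLp g ∞ μ) → ∃ C : ℝ, 0 ≤ C ∧ ∀ᵐ x ∂μ, ∀ n, ‖g (τ j n x)‖ ≤ C := by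
    intro j g hg
    rcases hg with hg | hg
    · obtain ⟨φ, hφ, v, hv, hb, _⟩ := hg 1 one_pos
      obtain ⟨C, hC⟩ := (hD φ hφ).2
      obtain ⟨C', hC'⟩ := (hD _ hv).2
      refine ⟨|C| + |C'|, by positivity, Eventually.of_forall fun x n => ?_⟩
      have h1 := hb (τ j n x)
      have h2 := hC (τ j n x)
      have h3 := le_abs_self C
      have h4 := hC' (τ j n x)
      rw [Complex.norm_real] at h4
      have h5 := le_abs_self C'
      have h6 := Real.le_norm_self (v (τ j n x))
      calc ‖g (τ j n x)‖ = ‖(g (τ j n x) - φ (τ j n x)) + φ (τ j n x)‖ := by congr 1; ring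
        _ ≤ v (τ j n x) + C := (norm_add_le _ _).trans (add_le_add h1 h2)
        _ ≤ |C| + |C'| := by linarith
    · refine ⟨(eLpNorm g ∞ μ).toReal, ENNReal.toReal_nonneg, ?_⟩
      rw [ae_all_iff]
      intro n
      have h1 : ∀ᵐ x ∂μ, ‖g x‖ ≤ (eLpNorm g ∞ μ).toReal := by
        have h2 := ae_le_eLpNormEssSup (f := g) (μ := μ)
        filter_upwards [h2] with x hx
        rw [← eLpNorm_exponent_top] at hx
        have := ENNReal.toReal_mono hg.eLpNorm_ne_top hx
        simpa using this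
      exact (hτ j n).quasiMeasurePreserving.ae h1
  have hDb : ∀ φ ∈ D, MemLp φ ∞ μ := by
    intro φ hφ
    obtain ⟨h1, C, hC⟩ := hD φ hφ
    exact memLp_top_of_bound h1 C (Eventually.of_forall hC)
  -- averages of a single function
  have hsingle : ∀ (a : Fin m) (v : X → ℝ), (fun x => (v x : ℂ)) ∈ D →
      ∀ᵐ x ∂μ, ∃ L, Tendsto (avg fun n => (v (τ a n x) : ℂ)) atTop (𝓝 L) := by
    intro a v hv
    have := hconv (Function.update (fun _ _ => 1) a fun x => (v x : ℂ)) (by
      intro j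
      by_cases hja : j = a
      · subst hja; rw [Function.update_self]; exact hv
      · rw [Function.update_of_ne hja]; exact hone)
    have e1 : ∀ n x, ∏ j, (Function.update (fun _ _ => 1) a (fun x => (v x : ℂ)) : Fin m → X → ℂ) j
        (τ j n x) = (v (τ a n x) : ℂ) := by
      intro n x
      rw [← Finset.mul_prod_erase univ _ (Finset.mem_univ a), Function.update_self]
      rw [Finset.prod_eq_one, mul_one]
      intro j hj
      rw [Function.update_of_ne (Finset.ne_of_mem_erase hj)]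
    simp_rw [e1] at this
    exact this
  have key : ∀ s : Finset (Fin m), ∀ f : Fin m → X → ℂ,
      (∀ j ∈ s, (∀ ε : ℝ, 0 < ε → ∃ φ ∈ D, ∃ v : X → ℝ, (fun x => (v x : ℂ)) ∈ D ∧
        (∀ x, ‖f j x - φ x‖ ≤ v x) ∧ ∫ x, v x ∂μ ≤ ε) ∨
      (MemLp (f j) ∞ μ ∧ MaxL2 (τ j) μ)) →
      (∀ j ∉ s, f j ∈ D) →
      ∀ᵐ x ∂μ, ∃ L, Tendsto (avg fun n => ∏ j, f j (τ j n x)) atTop (𝓝 L) := by
    intro s
    induction s using Finset.induction_on with
    | empty =>
      intro f _ h2
      exact hconv f fun j => h2 j (Finset.notMem_empty j)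
    | insert a s ha ih =>
      intro f h1 h2
      set w : ℕ → X → ℂ := fun n x => ∏ j ∈ univ.erase a, f j (τ j n x) with hw
      have hsplit : ∀ (g : X → ℂ) (x : X) (n : ℕ),
          ∏ j, (Function.update f a g) j (τ j n x) = w n x * g (τ a n x) := by
        intro g x n
        rw [← Finset.mul_prod_erase univ _ (Finset.mem_univ a), Function.update_self, mul_comm]
        congr 1
        apply Finset.prod_congr rfl
        intro j hj
        rw [Function.update_of_ne (Finset.ne_of_mem_erase hj)]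
      have hC : ∀ j, ∃ C : ℝ, 0 ≤ C ∧ ∀ᵐ x ∂μ, ∀ n, ‖f j (τ j n x)‖ ≤ C := by
        intro j
        apply hbd
        by_cases hj : j ∈ insert a s
        · rcases h1 j hj with h | ⟨h, _⟩
          · exact Or.inl h
          · exact Or.inr h
        · exact Or.inr (hDb _ (h2 j hj))
      choose C hC0 hC using hC
      have hwb : ∀ᵐ x ∂μ, ∀ n, ‖w n x‖ ≤ ∏ j ∈ univ.erase a, C j := by
        have : ∀ᵐ x ∂μ, ∀ j, ∀ n, ‖f j (τ j n x)‖ ≤ C j := by
          rw [ae_all_iff]
          exact hC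
        filter_upwards [this] with x hx n
        rw [hw]
        simp only
        rw [norm_prod]
        exact Finset.prod_le_prod (fun _ _ => norm_nonneg _) fun j _ => hx j n
      have hself : ∀ x n, ∏ j, f j (τ j n x) = w n x * f a (τ a n x) := by
        intro x n
        rw [← hsplit, Function.update_eq_self]
      have hD1 : ∀ φ ∈ D, ∀ᵐ x ∂μ, ∃ L,
          Tendsto (avg fun n => w n x * φ (τ a n x)) atTop (𝓝 L) := by
        intro φ hφ
        have := ih (Function.update f a φ) (by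
          intro j hj
          have hja : j ≠ a := by
            rintro rfl
            exact ha hj
          rw [Function.update_of_ne hja]
          exact h1 j (Finset.mem_insert_of_mem hj)) (by
          intro j hj
          by_cases hja : j = a
          · subst hja; rw [Function.update_self]; exact hφ
          · rw [Function.update_of_ne hja]
            exact h2 j (by rw [Finset.mem_insert, not_or]; exact ⟨hja, hj⟩))
        simp_rw [hsplit] at this
        exact this
      simp_rw [hself]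
      rcases h1 a (Finset.mem_insert_self a s) with h | ⟨hfa, hmax⟩
      · -- domination
        apply closure_dom (τ a) (hτ a) w _ hwb
        intro ε hε
        obtain ⟨φ, hφ, v, hv, hfv, hvε⟩ := h ε hε
        have hvi : Integrable v μ := by
          have h3 := (hDb _ hv).integrable (q := ∞) (by simp)
          have h4 := h3.re
          simpa using h4
        exact ⟨φ, v, hfv, hvi, hvε, hsingle a v hv, hD1 φ hφ⟩
      · -- maximal inequality
        apply closure_max (τ a) (hτ a) hmax w _ hwb (f a) hfa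
        intro ε hε
        obtain ⟨φ, hφ, hφε⟩ := hdense (f a) hfa ε hε
        exact ⟨φ, hDb φ hφ, hφε, hD1 φ hφ⟩
  exact key univ f (fun j _ => hf j) (fun j hj => absurd (Finset.mem_univ j) hj)

end Pool.Agent.NilAff
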