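import Mathlib

set_option autoImplicit false

/-!
# A counting lemma
-/

namespace Pool.Agent.NilAff

/-- The number of pairs `n < m` in `B`. -/
theorem two_mul_card_lt_pairs (B : Finset ℕ) :
    2 * ((B ×ˢ B).filter fun p : ℕ × ℕ => p.1 < p.2).card + B.card = B.card * B.card := by
  classical
  have h1 : ((B ×ˢ B).filter fun p : ℕ × ℕ => p.2 < p.1).card
      = ((B ×ˢ B).filter fun p : ℕ × ℕ => p.1 < p.2).card := by
    refine Finset.card_bij (fun p _ => (p.2, p.1)) ?_ ?_ ?_
    · intro p hp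
      simp only [Finset.mem_filter, Finset.mem_product] at hp ⊢
      exact ⟨⟨hp.1.2, hp.1.1⟩, hp.2⟩
    · rintro ⟨a, b⟩ _ ⟨c, d⟩ _ h
      simp only [Prod.mk.injEq] at h ⊢
      exact ⟨h.2, h.1⟩
    · rintro ⟨a, b⟩ hp
      simp only [Finset.mem_filter, Finset.mem_product] at hp
      refine ⟨(b, a), ?_, rfl⟩
      simp only [Finset.mem_filter, Finset.mem_product]
      exact ⟨⟨hp.1.2, hp.1.1⟩, hp.2⟩
  have h2 : ((B ×ˢ B).filter fun p : ℕ × ℕ => p.1 = p.2).card = B.card := by
    refine (Finset.card_bij (fun n _ => (n, n)) ?_ ?_ ?_).symm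
    · intro n hn
      simp only [Finset.mem_filter, Finset.mem_product]
      exact ⟨⟨hn, hn⟩, trivial⟩
    · intro a _ b _ h
      simp only [Prod.mk.injEq] at h
      exact h.1
    · rintro ⟨a, b⟩ hp
      simp only [Finset.mem_filter, Finset.mem_product] at hp
      refine ⟨a, hp.1.1, ?_⟩
      rw [hp.2]
  have h3 : B ×ˢ B = ((B ×ˢ B).filter fun p : ℕ × ℕ => p.1 < p.2)
      ∪ (((B ×ˢ B).filter fun p : ℕ × ℕ => p.2 < p.1)
        ∪ ((B ×ˢ B).filter fun p : ℕ × ℕ => p.1 = p.2)) := by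
    ext p
    simp only [Finset.mem_union, Finset.mem_filter]
    constructor
    · intro hp
      rcases lt_trichotomy p.1 p.2 with h | h | h
      · exact Or.inl ⟨hp, h⟩
      · exact Or.inr (Or.inr ⟨hp, h⟩)
      · exact Or.inr (Or.inl ⟨hp, h⟩)
    · rintro (h | h | h)
      · exact h.1
      · exact h.1
      · exact h.1
  have h4 := congrArg Finset.card h3
  rw [Finset.card_union_of_disjoint, Finset.card_union_of_disjoint, h1, h2,
    Finset.card_product] at h4
  · omega
  · rw [Finset.disjoint_left]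
    intro p hp hq
    simp only [Finset.mem_filter] at hp hq
    have := hp.2
    rw [hq.2] at this
    exact lt_irrefl _ this
  · rw [Finset.disjoint_left]
    intro p hp hq
    simp only [Finset.mem_union, Finset.mem_filter] at hp hq
    rcases hq with hq | hq
    · exact lt_asymm hp.2 hq.2
    · have := hp.2
      rw [hq.2] at this
      exact lt_irrefl _ this

/-- If a set `B` of more than `3 * L ^ (1 - 2 ^ (-(s + 1)))` numbers `< L` is given, then for some
`h > 0` more than `3 * L ^ (1 - 2 ^ (-s))` elements `n` of `B` satisfy `n + h ∈ B`.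
Proof. `L ≥ 1` and `|B| > 3`. The pairs `n < m` in `B` number `|B| (|B| - 1) / 2 ≥ |B| ^ 2 / 3 >
3 * L ^ (2 - 2 ^ (-s))`, and `m - n` takes fewer than `L` values. -/
theorem count_shift {s L : ℕ} {B : Finset ℕ} (hB : ∀ n ∈ B, n < L)
    (h : 3 * (L : ℝ) ^ (1 - (1 / 2 : ℝ) ^ (s + 1)) < B.card) :
    ∃ k, 0 < k ∧ 3 * (L : ℝ) ^ (1 - (1 / 2 : ℝ) ^ s) < (B.filter fun n => n + k ∈ B).card := by
  classical
  by_contra hcon
  push Not at hcon
  have hB0 : (0 : ℝ) < B.card := lt_of_le_of_lt (by positivity) h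
  have hBpos : 0 < B.card := by exact_mod_cast hB0
  obtain ⟨n0, hn0⟩ := Finset.card_pos.mp hBpos
  have hL1 : 1 ≤ L := lt_of_le_of_lt (Nat.zero_le _) (hB n0 hn0)
  have hL1' : (1 : ℝ) ≤ L := by exact_mod_cast hL1
  have hL0 : (0 : ℝ) < L := by linarith
  have hexp : (0 : ℝ) ≤ 1 - (1 / 2 : ℝ) ^ (s + 1) := by
    have : (1 / 2 : ℝ) ^ (s + 1) ≤ 1 := pow_le_one₀ (by norm_num) (by norm_num)
    linarith
  have hA1 : (1 : ℝ) ≤ (L : ℝ) ^ (1 - (1 / 2 : ℝ) ^ (s + 1)) := Real.one_le_rpow hL1' hexp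
  set A : ℝ := (L : ℝ) ^ (1 - (1 / 2 : ℝ) ^ (s + 1)) with hA
  have hAA : A * A = L * (L : ℝ) ^ (1 - (1 / 2 : ℝ) ^ s) := by
    rw [hA, ← Real.rpow_add hL0]
    nth_rewrite 2 [← Real.rpow_one (L : ℝ)]
    rw [← Real.rpow_add hL0]
    congr 1
    rw [pow_succ]
    ring
  set P := (B ×ˢ B).filter fun p : ℕ × ℕ => p.1 < p.2 with hP
  have hPcard : 2 * (P.card : ℝ) + B.card = B.card * B.card := by
    have := two_mul_card_lt_pairs B
    exact_mod_cast this
  have hmaps : ∀ p ∈ P, (fun p : ℕ × ℕ => p.2 - p.1) p ∈ Finset.Ico 1 L := by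
    intro p hp
    simp only [hP, Finset.mem_filter, Finset.mem_product] at hp
    have := hB _ hp.1.2
    simp only [Finset.mem_Ico]
    omega
  have hsum := Finset.card_eq_sum_card_fiberwise (f := fun p : ℕ × ℕ => p.2 - p.1)
    (s := P) (t := Finset.Ico 1 L) (fun p hp => by exact_mod_cast hmaps p hp)
  have hfib : ∀ k ∈ Finset.Ico 1 L,
      (((P.filter fun p : ℕ × ℕ => p.2 - p.1 = k).card : ℕ) : ℝ)
        ≤ 3 * (L : ℝ) ^ (1 - (1 / 2 : ℝ) ^ s) := by
    intro k hk
    rw [Finset.mem_Ico] at hk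
    refine le_trans ?_ (hcon k (by omega))
    have : (P.filter fun p : ℕ × ℕ => p.2 - p.1 = k).card
        ≤ (B.filter fun n => n + k ∈ B).card := by
      refine Finset.card_le_card_of_injOn (fun p => p.1) ?_ ?_
      · intro p hp
        have hp' : p ∈ P.filter fun p : ℕ × ℕ => p.2 - p.1 = k := by exact_mod_cast hp
        simp only [hP, Finset.mem_filter, Finset.mem_product] at hp'
        have hq : p.1 + k = p.2 := by omega
        have : p.1 ∈ B.filter fun n => n + k ∈ B := by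
          rw [Finset.mem_filter, hq]
          exact ⟨hp'.1.1.1, hp'.1.1.2⟩
        exact_mod_cast this
      · intro p hp q hq hpq
        have hp' : p ∈ P.filter fun p : ℕ × ℕ => p.2 - p.1 = k := by exact_mod_cast hp
        have hq' : q ∈ P.filter fun p : ℕ × ℕ => p.2 - p.1 = k := by exact_mod_cast hq
        simp only [hP, Finset.mem_filter, Finset.mem_product] at hp' hq'
        have hpq' : p.1 = q.1 := hpq
        refine Prod.ext hpq' ?_
        omega
    exact_mod_cast this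
  have hPle : (P.card : ℝ) ≤ L * (3 * (L : ℝ) ^ (1 - (1 / 2 : ℝ) ^ s)) := by
    rw [hsum]
    push_cast
    refine (Finset.sum_le_sum hfib).trans ?_
    rw [Finset.sum_const, Nat.card_Ico, nsmul_eq_mul]
    refine mul_le_mul_of_nonneg_right ?_ (by positivity)
    exact_mod_cast Nat.sub_le L 1
  have hb3 : (3 : ℝ) < B.card := lt_of_le_of_lt (by linarith) h
  have hb2 : 9 * (A * A) < B.card * B.card := by nlinarith
  nlinarith

end Pool.Agent.NilAff
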