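import Pool.Agent.Lib.PolySeq

set_option autoImplicit false

/-!
# The degree filtration of polynomial sequences in a nilpotent group

Paper proof of `exists_deg`. Let `F = lcF G D`, `s` with `F s = ⊥` (see `poly_Dv` in
Lib/PolySeq.lean), `R i = Q F (s - i) i` for `i ≤ s` (the sequences `g` with values in `F i` all of
whose `j`-fold differences have values in `F (i + j)`), a subgroup of `ℕ → G` by `good`, normalised by
`R 0` (`Good.conj`, with `Q_succ`), `R s = 1`, and `dd h g ∈ R (i + 1)` for `g ∈ R i`, `i < s`.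
`𝒟 w = {g ∈ R 0 | ∀ h, dd h g ∈ R (s + 1 - w)}` for `1 ≤ w ≤ s + 1`, with `𝒟 0` the constant sequences,
`𝒟 w = R 0` for large `w`. It is a subgroup by the formulas for
`dd h (g * g')` and `dd h g⁻¹` in the proof of `good`.
(Other definitions of `𝒟` are welcome, only the statement matters. For instance, to avoid truncation
one can first prove that `Q F k i` is contained in `Q F (k + 1) i` when `F (i + k) = ⊥`, and use
`R i = {g | ∀ k, g ∈ Q F k i}`, which is a subgroup by `good`, satisfies `R i = 1` for `i ≥ s`,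
`dd h g ∈ R (i + 1)` for `g ∈ R i`, and `R (i + 1) ≤ R i`.)
-/

namespace Pool.Agent.NilAff

open Pool.Lib.PolySeq

variable {G : Type*} [Group G]

/-- The sequences of index `i`. -/
private def rr (D i : ℕ) : Subgroup (ℕ → G) where
  carrier := {g | ∀ k, g ∈ Q (lcF G D) k i}
  mul_mem' := fun {a b} ha hb k => (good (lcF_filt (G := G) D) k).mul i a b (ha k) (hb k)
  one_mem' := fun k => one_mem_Q k i
  inv_mem' := fun {a} ha k => (good (lcF_filt (G := G) D) k).inv i a (ha k)

private lemma mem_rr {D i : ℕ} {g : ℕ → G} : g ∈ (rr D i : Subgroup (ℕ → G)) ↔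
    ∀ k, g ∈ Q (lcF G D) k i := Iff.rfl

private lemma rr_anti {D i j : ℕ} (h : i ≤ j) : (rr D j : Subgroup (ℕ → G)) ≤ rr D i :=
  fun _ hg k => Q_le (lcF_filt D) h (hg k)

private lemma rr_dd {D i : ℕ} {g : ℕ → G} (hg : g ∈ (rr D i : Subgroup (ℕ → G))) (h : ℕ) :
    dd h g ∈ (rr D (i + 1) : Subgroup (ℕ → G)) := fun k => (hg (k + 1)).2 h

private lemma rr_conj {D i : ℕ} {v u : ℕ → G} (hv : v ∈ (rr D 0 : Subgroup (ℕ → G)))
    (hu : u ∈ (rr D i : Subgroup (ℕ → G))) : v * u * v⁻¹ ∈ (rr D i : Subgroup (ℕ → G)) :=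
  fun k => (good (lcF_filt (G := G) D) k).conj (lcF_filt D) (hv k) (hu k)

private lemma dd_mul' (h : ℕ) (g g' : ℕ → G) :
    dd h (g * g') = (g'⁻¹ * dd h g * (g'⁻¹)⁻¹) * dd h g' := by
  funext n
  simp only [dd, Pi.mul_apply, Pi.inv_apply]
  group

private lemma dd_inv' (h : ℕ) (g : ℕ → G) : dd h g⁻¹ = g * (dd h g)⁻¹ * g⁻¹ := by
  funext n
  simp only [dd, Pi.mul_apply, Pi.inv_apply]
  group

/-- The sequences of index `0` with differences of index `j`. -/
private def rd (D j : ℕ) : Subgroup (ℕ → G) where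
  carrier := {g | g ∈ (rr D 0 : Subgroup (ℕ → G)) ∧ ∀ h, dd h g ∈ (rr D j : Subgroup (ℕ → G))}
  mul_mem' := by
    rintro a b ⟨ha, ha'⟩ ⟨hb, hb'⟩
    refine ⟨mul_mem ha hb, fun h => ?_⟩
    rw [dd_mul']
    exact mul_mem (rr_conj (inv_mem hb) (ha' h)) (hb' h)
  one_mem' := by
    refine ⟨one_mem _, fun h => ?_⟩
    have e : dd h (1 : ℕ → G) = 1 := by
      funext n; simp [dd]
    rw [e]
    exact one_mem _
  inv_mem' := by
    rintro a ⟨ha, ha'⟩
    refine ⟨inv_mem ha, fun h => ?_⟩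
    rw [dd_inv']
    exact rr_conj ha (inv_mem (ha' h))

private lemma rd_anti {D i j : ℕ} (h : i ≤ j) : (rd D j : Subgroup (ℕ → G)) ≤ rd D i :=
  fun _ hg => ⟨hg.1, fun k => rr_anti h (hg.2 k)⟩

/-- The constant sequences. -/
private def rc (G : Type*) [Group G] : Subgroup (ℕ → G) where
  carrier := {g | ∀ n, g n = g 0}
  mul_mem' := fun {a b} ha hb n => by
    simp only [Pi.mul_apply]
    rw [ha n, hb n]
  one_mem' := fun n => rfl
  inv_mem' := fun {a} ha n => by
    simp only [Pi.inv_apply]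
    rw [ha n]

private lemma lcF_zero (D : ℕ) : lcF G D 0 = ⊤ := by
  have h : ee D 0 = 0 := by
    have h1 : ee D 0 ≤ ee D D := ee_mono D (Nat.zero_le D)
    rw [ee_top] at h1
    omega
  unfold lcF
  rw [h]
  exact Subgroup.lowerCentralSeries_zero _

private lemma rc_mem {D j : ℕ} {g : ℕ → G} (hg : g ∈ rc G) :
    g ∈ (rd D j : Subgroup (ℕ → G)) := by
  have e : ∀ h, dd h g = 1 := by
    intro h
    funext n
    simp only [dd, Pi.one_apply]
    rw [hg n, hg (n + h), inv_mul_cancel]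
  refine ⟨fun k => ?_, fun h => by rw [e]; exact one_mem _⟩
  cases k with
  | zero =>
    intro n
    rw [lcF_zero]
    exact Subgroup.mem_top _
  | succ k =>
    refine ⟨fun n => ?_, fun h => ?_⟩
    · rw [lcF_zero]
      exact Subgroup.mem_top _
    · rw [e]
      exact one_mem_Q k _

/-- The filtration. -/
private def rD (G : Type*) [Group G] (D s : ℕ) : ℕ → Subgroup (ℕ → G)
  | 0 => rc G
  | w + 1 => rd D (s - w)

theorem exists_deg (G : Type*) [Group G] [Group.IsNilpotent G] (D : ℕ) :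
    ∃ (W : ℕ) (𝒟 : ℕ → Subgroup (ℕ → G)), (∀ w, 𝒟 w ≤ 𝒟 (w + 1)) ∧
      (∀ p ∈ 𝒟 0, ∀ n, p n = p 0) ∧ (∀ g : G, (fun _ => g) ∈ 𝒟 0) ∧
      (∀ w, ∀ p ∈ 𝒟 (w + 1), ∀ h : ℕ, dd h p ∈ 𝒟 w) ∧
      Subgroup.closure (monos G D) ≤ 𝒟 W := by
  set c := Group.nilpotencyClass G with hc
  set s := (D + 1) * 2 ^ c with hs
  have hbot : lcF G D s = ⊥ := by
    unfold lcF
    rw [hs, ee_big]
    exact Subgroup.lowerCentralSeries_nilpotencyClass
  refine ⟨s + 1, rD G D s, ?_, ?_, ?_, ?_, ?_⟩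
  · intro w
    cases w with
    | zero => exact fun g hg => rc_mem hg
    | succ w => exact rd_anti (by omega)
  · exact fun p hp => hp
  · exact fun g n => rfl
  · intro w p hp h
    cases w with
    | zero =>
      have h1 : dd h p ∈ (rr D s : Subgroup (ℕ → G)) := hp.2 h
      intro n
      have h2 : ∀ m, dd h p m = 1 := by
        intro m
        have h3 := h1 0 m
        rw [hbot] at h3
        exact Subgroup.mem_bot.1 h3
      rw [h2, h2]
    | succ w =>
      have h1 : dd h p ∈ (rr D (s - (w + 1)) : Subgroup (ℕ → G)) := hp.2 h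
      refine ⟨rr_anti (Nat.zero_le _) h1, fun h' => ?_⟩
      exact rr_anti (by omega) (rr_dd h1 h')
  · have h0 : Subgroup.closure (monos G D) ≤ (rr D 0 : Subgroup (ℕ → G)) := by
      rw [Subgroup.closure_le]
      rintro g ⟨y, P, hP, rfl⟩ k
      apply pow_mem_Q k 0 D y _ (lcF_anti D) P hP
      rw [zero_add]
      unfold lcF
      rw [ee_top]
      exact Subgroup.mem_top _
    refine h0.trans fun g hg => ?_
    exact ⟨hg, fun h => rr_anti (by omega) (rr_dd hg h)⟩

end Pool.Agent.NilAff
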