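import Pool.Agent.NilAff.Seq
import Pool.Agent.NilAff.Deg

set_option autoImplicit false

/-!
# Sums of orbits along sequences of group elements
-/

namespace Pool.Agent.NilAff

variable {G V : Type*} [Group G] [AddCommGroup V] [DistribMulAction G V]

/-- The sequence `n ↦ ∑ p n • f` over the pairs `(p, f)` of the list. -/
def sq (l : List ((ℕ → G) × V)) : ℕ → V := fun n => (l.map fun a => a.1 n • a.2).sum

@[simp] lemma sq_nil : sq ([] : List ((ℕ → G) × V)) = 0 := rfl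

lemma sq_cons (a : (ℕ → G) × V) (l : List ((ℕ → G) × V)) (n : ℕ) :
    sq (a :: l) n = a.1 n • a.2 + sq l n := by
  simp [sq]

lemma sq_append (l l' : List ((ℕ → G) × V)) (n : ℕ) : sq (l ++ l') n = sq l n + sq l' n := by
  simp [sq]

/-- All pairs of the list are in `Ps × S`. -/
def In (Ps : Subgroup (ℕ → G)) (S : AddSubgroup V) (l : List ((ℕ → G) × V)) : Prop :=
  ∀ a ∈ l, a.1 ∈ Ps ∧ a.2 ∈ S

/-- `q` is a universal period: if a sum of orbits lies in `C` along the progression `r + h ℕ`,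
then along `r + q ℕ`. -/
def Per (Ps : Subgroup (ℕ → G)) (S C : AddSubgroup V) (q : ℕ) : Prop :=
  ∀ l, In Ps S l → ∀ h r : ℕ, 0 < h → (∀ n, sq l (r + h * n) ∈ C) → ∀ n, sq l (r + q * n) ∈ C

/-- The sequence is in `C` only rarely. -/
def Rare (C : AddSubgroup V) (s : ℕ) (u : ℕ → V) : Prop :=
  ∀ (L : ℕ) (B : Finset ℕ), (∀ n ∈ B, n < L ∧ u n ∈ C) →
    (B.card : ℝ) ≤ 3 * (L : ℝ) ^ (1 - (1 / 2 : ℝ) ^ s)

end Pool.Agent.NilAff
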