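import Pool.Agent.NilAff.Defs
import Pool.Agent.NilAff.Count

set_option autoImplicit false

/-!
# The dichotomy (PET induction)

Paper proof. `𝒟 w` is the degree filtration. A list `l` has type `(t, N)` (`N : ℕ → ℕ`) if it has at
most `t` terms, all `p` in `Ps`, `p ∈ 𝒟 W`, and for every `w` with `1 ≤ w ≤ W` the `p` of degree `w` (in
`𝒟 w` but not in `𝒟 (w - 1)`) are covered by at most `N w` left cosets `k 𝒟 (w - 1)`. Claim: for every
`N`, `t` there is `s` which works for all lists of type `(t, N)`; induction on `N` in the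
lexicographic order (highest degree first). If all degrees are `0` then `sq l` is constant.
Otherwise let `p₁` be a term of minimal positive degree `w₁`, `u = sq l`. For `h > 0` the sequence
`u_h n = (p₁ n)⁻¹ • (u (n + q h) - u n)` is `sq l_h`, where `l_h` consists of the pairs
`(p₁⁻¹ σ^{qh} p, f)` and `(p₁⁻¹ p, -f)` over the pairs `(p, f)` of `l` with `p` of positive degree; it has
type `(2 t, N')` with `N' w = N w` for `w > w₁`, `N' w₁ = N w₁ - 1`, `N' w = 2 t` for `w < w₁` (left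
multiplication by `p₁⁻¹ ∈ 𝒟 w₁` maps the left cosets of degree `w > w₁` to left cosets of degree
`w`, `p` and `σ^{qh} p` are in the same left coset of `𝒟 (w - 1)`, and the coset of `p₁` becomes
`𝒟 (w₁ - 1)`). Let `s'` be the maximum over `w₁ ≤ W` of the `s` for `(2 t, N')`, `s = s' + 1`. If `u` is in
`C` for more than `3 L ^ (1 - 2 ^ (-s))` of the first `L` points of the progression `r + q ℕ`, then by
`count_shift` for some `h > 0` `u_h` is in `C` for more than `3 L ^ (1 - 2 ^ (-s'))` of them, so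
`u (n + q h) - u n ∈ C` for all `n` in the progression. Since `u ∈ C` at some `n₀`, `u ∈ C` on
`n₀ + q h ℕ`, so on `n₀ + q ℕ` (`Per`), and then everywhere on the progression.
-/

namespace Pool.Agent.NilAff

open Pool.Lib.PolySeq

variable {G V : Type*} [Group G] [AddCommGroup V] [DistribMulAction G V]

/-! ### The lexicographic order -/

/-- The lexicographic order on the values at `0, …, W - 1`, the last value has the highest
priority. -/
def Lt (W : ℕ) (N' N : ℕ → ℕ) : Prop :=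
  ∃ w < W, N' w < N w ∧ ∀ v, w < v → v < W → N' v = N v

lemma acc_Lt (W : ℕ) : ∀ N, Acc (Lt W) N := by
  induction W with
  | zero =>
    intro N
    refine ⟨_, fun N' ⟨w, hw, _⟩ => absurd hw (Nat.not_lt_zero w)⟩
  | succ W ih =>
    have key : ∀ n : ℕ, ∀ N : ℕ → ℕ, N W = n → Acc (Lt (W + 1)) N := by
      intro n
      induction n using Nat.strong_induction_on with
      | _ n ihn =>
        intro N
        have hacc := ih N
        induction hacc with
        | intro N _ ihacc =>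
          intro hN
          refine ⟨_, ?_⟩
          rintro N' ⟨w, hw, h1, h2⟩
          rcases Nat.lt_succ_iff_lt_or_eq.1 hw with h | h
          · refine ihacc N' ⟨w, h, h1, fun v hv hvW => h2 v hv (by omega)⟩ ?_
            rw [h2 W h (Nat.lt_succ_self W), hN]
          · subst h
            exact ihn (N' w) (by rw [← hN]; exact h1) N' rfl
    intro N
    exact key _ N rfl

/-! ### Differences -/

/-- The shifted sequence. -/
def sh (h : ℕ) (p : ℕ → G) : ℕ → G := fun n => p (n + h)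

lemma sh_eq (h : ℕ) (p : ℕ → G) : sh h p = p * dd h p := by
  funext n
  simp [sh, dd]

open Classical in
/-- The difference list. -/
noncomputable def dl (P : (ℕ → G) → Prop) (p₁ : ℕ → G) (h : ℕ) (l : List ((ℕ → G) × V)) :
    List ((ℕ → G) × V) :=
  ((l.filter fun a => P a.1).map fun a => (p₁⁻¹ * sh h a.1, a.2)) ++
    ((l.filter fun a => P a.1).map fun a => (p₁⁻¹ * a.1, -a.2))

lemma sq_dl (P : (ℕ → G) → Prop) (h0 : ∀ p, ¬ P p → ∀ n m, p n = p m) (p₁ : ℕ → G) (h : ℕ)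
    (l : List ((ℕ → G) × V)) (n : ℕ) :
    sq (dl P p₁ h l) n = (p₁ n)⁻¹ • (sq l (n + h) - sq l n) := by
  classical
  unfold dl
  rw [sq_append]
  induction l with
  | nil => simp
  | cons a l ih =>
    by_cases ha : P a.1
    · rw [List.filter_cons_of_pos (by simpa using ha), List.map_cons, List.map_cons, sq_cons,
        sq_cons, sq_cons, sq_cons]
      simp only [Pi.mul_apply, Pi.inv_apply, sh, mul_smul, smul_neg, smul_sub, smul_add] at ih ⊢
      rw [← sub_eq_zero] at ih ⊢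
      rw [← ih]
      abel
    · rw [List.filter_cons_of_neg (by simpa using ha), sq_cons, sq_cons, ih, h0 a.1 ha (n + h) n]
      congr 1
      abel

lemma mem_dl {P : (ℕ → G) → Prop} {p₁ : ℕ → G} {h : ℕ} {l : List ((ℕ → G) × V)}
    {b : (ℕ → G) × V} (hb : b ∈ dl P p₁ h l) : ∃ a ∈ l, P a.1 ∧
      (b = (p₁⁻¹ * sh h a.1, a.2) ∨ b = (p₁⁻¹ * a.1, -a.2)) := by
  classical
  unfold dl at hb
  rw [List.mem_append, List.mem_map, List.mem_map] at hb
  rcases hb with ⟨a, ha, rfl⟩ | ⟨a, ha, rfl⟩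
  · rw [List.mem_filter] at ha
    exact ⟨a, ha.1, by simpa using ha.2, Or.inl rfl⟩
  · rw [List.mem_filter] at ha
    exact ⟨a, ha.1, by simpa using ha.2, Or.inr rfl⟩

lemma length_dl (P : (ℕ → G) → Prop) (p₁ : ℕ → G) (h : ℕ) (l : List ((ℕ → G) × V)) :
    (dl P p₁ h l).length ≤ 2 * l.length := by
  classical
  unfold dl
  rw [List.length_append, List.length_map, List.length_map]
  have := List.length_filter_le (fun a : (ℕ → G) × V => decide (P a.1)) l
  omega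

/-! ### Degrees -/

section deg

variable {𝒟 : ℕ → Subgroup (ℕ → G)}

lemma deg_mono (hmono : ∀ w, 𝒟 w ≤ 𝒟 (w + 1)) {v w : ℕ} (h : v ≤ w) : 𝒟 v ≤ 𝒟 w := by
  induction w, h using Nat.le_induction with
  | base => exact le_rfl
  | succ w _ ih => exact ih.trans (hmono w)

lemma sh_mem (hmono : ∀ w, 𝒟 w ≤ 𝒟 (w + 1)) (h0 : ∀ p ∈ 𝒟 0, ∀ n, p n = p 0)
    (hdd : ∀ w, ∀ p ∈ 𝒟 (w + 1), ∀ h : ℕ, dd h p ∈ 𝒟 w) {p : ℕ → G} {v : ℕ} (hp : p ∈ 𝒟 v)
    (h : ℕ) : sh h p ∈ 𝒟 v := by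
  cases v with
  | zero =>
    have : sh h p = p := by
      funext n
      show p (n + h) = p n
      rw [h0 p hp (n + h), h0 p hp n]
    rw [this]
    exact hp
  | succ v =>
    rw [sh_eq]
    exact (𝒟 (v + 1)).mul_mem hp (hmono v (hdd v p hp h))

lemma mem_of_sh (hmono : ∀ w, 𝒟 w ≤ 𝒟 (w + 1))
    (hdd : ∀ w, ∀ p ∈ 𝒟 (w + 1), ∀ h : ℕ, dd h p ∈ 𝒟 w) {p : ℕ → G} {v : ℕ} (h : ℕ)
    (w : ℕ) : p ∈ 𝒟 w → sh h p ∈ 𝒟 v → p ∈ 𝒟 v := by
  induction w with
  | zero => intro hp _; exact deg_mono hmono (Nat.zero_le v) hp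
  | succ w ih =>
    intro hp hs
    by_cases hv : w + 1 ≤ v
    · exact deg_mono hmono hv hp
    · apply ih _ hs
      have e : p = sh h p * (dd h p)⁻¹ := by
        rw [sh_eq, mul_inv_cancel_right]
      rw [e]
      exact (𝒟 w).mul_mem (deg_mono hmono (by omega) hs) ((𝒟 w).inv_mem (hdd w p hp h))

end deg

/-- The sequences of degree `w + 1` of the list are covered by `N w` left cosets of `𝒟 w`. -/
def Cov (𝒟 : ℕ → Subgroup (ℕ → G)) (W : ℕ) (N : ℕ → ℕ) (l : List ((ℕ → G) × V)) : Prop :=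
  ∀ w < W, ∃ K : Finset (ℕ → G), K.card ≤ N w ∧
    ∀ a ∈ l, a.1 ∈ 𝒟 (w + 1) → a.1 ∉ 𝒟 w → ∃ k ∈ K, k⁻¹ * a.1 ∈ 𝒟 w

/-- The new numbers of cosets. -/
def nx (N : ℕ → ℕ) (w t : ℕ) : ℕ → ℕ := fun v => if w < v then N v else
  if v = w then N w - 1 else t

lemma cov_dl {𝒟 : ℕ → Subgroup (ℕ → G)} {W : ℕ} (hmono : ∀ w, 𝒟 w ≤ 𝒟 (w + 1))
    (h0 : ∀ p ∈ 𝒟 0, ∀ n, p n = p 0) (hdd : ∀ w, ∀ p ∈ 𝒟 (w + 1), ∀ h : ℕ, dd h p ∈ 𝒟 w)
    {N : ℕ → ℕ} {l : List ((ℕ → G) × V)} (hl : ∀ a ∈ l, a.1 ∈ 𝒟 W) (hcov : Cov 𝒟 W N l)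
    {w : ℕ} {p₁ : ℕ → G} (hp1 : p₁ ∈ 𝒟 (w + 1)) (hp2 : p₁ ∉ 𝒟 w) (hw : w < W)
    (hmem : ∃ f, (p₁, f) ∈ l) (hmin : ∀ a ∈ l, a.1 ∉ 𝒟 0 → a.1 ∉ 𝒟 w) {t : ℕ}
    (ht : 2 * l.length ≤ t) (h : ℕ) :
    0 < N w ∧ Cov 𝒟 W (nx N w t) (dl (fun p => p ∉ 𝒟 0) p₁ h l) := by
  classical
  obtain ⟨f, hf⟩ := hmem
  obtain ⟨K, hK, hKc⟩ := hcov w hw
  obtain ⟨k₁, hk₁, hk₁'⟩ := hKc _ hf hp1 hp2
  have hpos : 0 < N w := lt_of_lt_of_le (Finset.card_pos.2 ⟨k₁, hk₁⟩) hK
  refine ⟨hpos, ?_⟩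
  intro v hv
  rcases lt_trichotomy v w with hvw | rfl | hvw
  · refine ⟨((dl (fun p => p ∉ 𝒟 0) p₁ h l).map Prod.fst).toFinset, ?_, ?_⟩
    · refine (List.toFinset_card_le _).trans ?_
      rw [List.length_map]
      refine (length_dl _ _ _ _).trans ?_
      unfold nx
      rw [if_neg (by omega), if_neg (by omega)]
      exact ht
    · intro a ha _ _
      refine ⟨a.1, ?_, ?_⟩
      · rw [List.mem_toFinset]
        exact List.mem_map_of_mem ha
      · rw [inv_mul_cancel]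
        exact (𝒟 v).one_mem
  · refine ⟨(K.erase k₁).image (fun k => p₁⁻¹ * k), ?_, ?_⟩
    · refine Finset.card_image_le.trans ?_
      rw [Finset.card_erase_of_mem hk₁]
      unfold nx
      rw [if_neg (lt_irrefl v), if_pos rfl]
      omega
    · intro b hb hb1 hb2
      obtain ⟨a, ha, haP, hab⟩ := mem_dl hb
      have hav : a.1 ∈ 𝒟 (v + 1) := by
        rcases hab with rfl | rfl
        · have h3 : sh h a.1 ∈ 𝒟 (v + 1) := by
            have := (𝒟 (v + 1)).mul_mem hp1 hb1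
            rwa [mul_inv_cancel_left] at this
          exact mem_of_sh hmono hdd h W (hl a ha) h3
        · have := (𝒟 (v + 1)).mul_mem hp1 hb1
          rwa [mul_inv_cancel_left] at this
      obtain ⟨k, hk, hk'⟩ := hKc a ha hav (hmin a ha haP)
      have hbk : (p₁⁻¹ * k)⁻¹ * b.1 ∈ 𝒟 v := by
        rcases hab with rfl | rfl
        · have e : (p₁⁻¹ * k)⁻¹ * (p₁⁻¹ * sh h a.1) = (k⁻¹ * a.1) * dd h a.1 := by
            rw [sh_eq]; group
          rw [e]
          exact (𝒟 v).mul_mem hk' (hdd v _ hav h)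
        · have e : (p₁⁻¹ * k)⁻¹ * (p₁⁻¹ * a.1) = k⁻¹ * a.1 := by group
          rw [e]
          exact hk'
      refine ⟨p₁⁻¹ * k, ?_, hbk⟩
      rw [Finset.mem_image]
      refine ⟨k, Finset.mem_erase.2 ⟨?_, hk⟩, rfl⟩
      rintro rfl
      apply hb2
      have e : b.1 = (k⁻¹ * p₁)⁻¹ * ((p₁⁻¹ * k)⁻¹ * b.1) := by group
      rw [e]
      exact (𝒟 v).mul_mem ((𝒟 v).inv_mem hk₁') hbk
  · obtain ⟨K', hK', hKc'⟩ := hcov v hv
    refine ⟨K'.image (fun k => p₁⁻¹ * k), ?_, ?_⟩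
    · refine Finset.card_image_le.trans ?_
      unfold nx
      rw [if_pos hvw]
      exact hK'
    · intro b hb hb1 hb2
      obtain ⟨a, ha, haP, hab⟩ := mem_dl hb
      have hpv : p₁ ∈ 𝒟 v := deg_mono hmono hvw hp1
      have hav : a.1 ∈ 𝒟 (v + 1) := by
        rcases hab with rfl | rfl
        · have h3 : sh h a.1 ∈ 𝒟 (v + 1) := by
            have := (𝒟 (v + 1)).mul_mem (hmono v hpv) hb1
            rwa [mul_inv_cancel_left] at this
          exact mem_of_sh hmono hdd h W (hl a ha) h3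
        · have := (𝒟 (v + 1)).mul_mem (hmono v hpv) hb1
          rwa [mul_inv_cancel_left] at this
      have hav2 : a.1 ∉ 𝒟 v := by
        intro hc
        apply hb2
        rcases hab with rfl | rfl
        · exact (𝒟 v).mul_mem ((𝒟 v).inv_mem hpv) (sh_mem hmono h0 hdd hc h)
        · exact (𝒟 v).mul_mem ((𝒟 v).inv_mem hpv) hc
      obtain ⟨k, hk, hk'⟩ := hKc' a ha hav hav2
      refine ⟨p₁⁻¹ * k, Finset.mem_image_of_mem _ hk, ?_⟩
      rcases hab with rfl | rfl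
      · have e : (p₁⁻¹ * k)⁻¹ * (p₁⁻¹ * sh h a.1) = (k⁻¹ * a.1) * dd h a.1 := by
          rw [sh_eq]; group
        rw [e]
        exact (𝒟 v).mul_mem hk' (hdd v _ hav h)
      · have e : (p₁⁻¹ * k)⁻¹ * (p₁⁻¹ * a.1) = k⁻¹ * a.1 := by group
        rw [e]
        exact hk'

lemma Rare.mono {C : AddSubgroup V} {s s' : ℕ} (hs : s ≤ s') {u : ℕ → V} (h : Rare C s u) :
    Rare C s' u := by
  intro L B hB
  rcases Nat.eq_zero_or_pos L with rfl | hL
  · have : B = ∅ := by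
      rw [Finset.eq_empty_iff_forall_notMem]
      intro n hn
      exact absurd (hB n hn).1 (Nat.not_lt_zero n)
    rw [this, Finset.card_empty, Nat.cast_zero]
    positivity
  · refine (h L B hB).trans ?_
    have hL' : (1 : ℝ) ≤ L := by exact_mod_cast hL
    apply mul_le_mul_of_nonneg_left _ (by norm_num)
    apply Real.rpow_le_rpow_of_exponent_le hL'
    have : (1 / 2 : ℝ) ^ s' ≤ (1 / 2 : ℝ) ^ s :=
      pow_le_pow_of_le_one (by norm_num) (by norm_num) hs
    linarith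

/-- The inductive step. -/
lemma pet_step (Ps : Subgroup (ℕ → G)) (hsh : ∀ p ∈ Ps, ∀ r : ℕ, (fun n => p (n + r)) ∈ Ps)
    (W : ℕ) (𝒟 : ℕ → Subgroup (ℕ → G)) (hmono : ∀ w, 𝒟 w ≤ 𝒟 (w + 1))
    (h0 : ∀ p ∈ 𝒟 0, ∀ n, p n = p 0) (hdd : ∀ w, ∀ p ∈ 𝒟 (w + 1), ∀ h : ℕ, dd h p ∈ 𝒟 w)
    (hW : Ps ≤ 𝒟 W) (S C : AddSubgroup V) (hC : ∀ g : G, ∀ v ∈ C, g • v ∈ C) (q : ℕ) (hq : 0 < q)
    (hPer : Per Ps S C q) (N : ℕ → ℕ) :
    ∀ t : ℕ, ∃ s : ℕ, ∀ l, In Ps S l → l.length ≤ t → Cov 𝒟 W N l → ∀ r : ℕ,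
      (∀ n, sq l (r + q * n) ∈ C) ∨ Rare C s (fun n => sq l (r + q * n)) := by
  classical
  have hacc := acc_Lt W N
  induction hacc with
  | intro N _ IH =>
  intro t
  have h1 : ∀ w, ∃ s, w < W → 0 < N w → ∀ l, In Ps S l → l.length ≤ 2 * t →
      Cov 𝒟 W (nx N w (2 * t)) l → ∀ r : ℕ,
      (∀ n, sq l (r + q * n) ∈ C) ∨ Rare C s (fun n => sq l (r + q * n)) := by
    intro w
    by_cases hw : w < W ∧ 0 < N w
    · obtain ⟨s, hs⟩ := IH (nx N w (2 * t)) ⟨w, hw.1, by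
        unfold nx
        rw [if_neg (lt_irrefl w), if_pos rfl]
        have := hw.2
        omega, fun v hv _ => by
        unfold nx
        rw [if_pos hv]⟩ (2 * t)
      exact ⟨s, fun _ _ => hs⟩
    · exact ⟨0, fun h1 h2 => absurd ⟨h1, h2⟩ hw⟩
  choose sf hsf using h1
  set s' := (Finset.range W).sup sf with hs'
  refine ⟨s' + 1, ?_⟩
  intro l hl hlt hcov r
  by_cases hconst : ∀ a ∈ l, a.1 ∈ 𝒟 0
  · -- constant sequences
    have h2 : ∀ n, sq l n = sq l 0 := by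
      intro n
      unfold sq
      congr 1
      apply List.map_congr_left
      intro a ha
      rw [h0 a.1 (hconst a ha) n]
    by_cases h3 : sq l 0 ∈ C
    · left
      intro n
      rw [h2]
      exact h3
    · right
      intro L B hB
      have : B = ∅ := by
        rw [Finset.eq_empty_iff_forall_notMem]
        intro n hn
        apply h3
        have := (hB n hn).2
        simp only [h2] at this
        exact this
      rw [this, Finset.card_empty, Nat.cast_zero]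
      positivity
  -- minimal degree
  push Not at hconst
  obtain ⟨a₀, ha₀, ha₀'⟩ := hconst
  have hex : ∃ w, ∃ a ∈ l, a.1 ∉ 𝒟 0 ∧ a.1 ∈ 𝒟 w := ⟨W, a₀, ha₀, ha₀', hW (hl a₀ ha₀).1⟩
  obtain ⟨a, ha, ha0, haw⟩ := Nat.find_spec hex
  have hmin := fun w (hw : w < Nat.find hex) => Nat.find_min hex hw
  have hle : Nat.find hex ≤ W := Nat.find_min' hex ⟨a₀, ha₀, ha₀', hW (hl a₀ ha₀).1⟩
  obtain ⟨w, hw⟩ : ∃ w, Nat.find hex = w + 1 := by
    apply Nat.exists_eq_succ_of_ne_zero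
    intro hz
    rw [hz] at haw
    exact ha0 haw
  rw [hw] at haw hle
  have hminw : ∀ b ∈ l, b.1 ∉ 𝒟 0 → b.1 ∉ 𝒟 w := by
    intro b hb hb0 hbw
    exact hmin w (by omega) ⟨b, hb, hb0, hbw⟩
  set p₁ := a.1 with hp₁
  have hcd := fun h => cov_dl hmono h0 hdd (fun a ha => hW (hl a ha).1) hcov haw (hminw a ha ha0)
    (show w < W by omega) ⟨a.2, ha⟩ hminw (t := 2 * t) (by omega) h
  have hIn : ∀ h, In Ps S (dl (fun p => p ∉ 𝒟 0) p₁ h l) := by
    intro h b hb
    obtain ⟨c, hc, _, hcb⟩ := mem_dl hb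
    rcases hcb with rfl | rfl
    · exact ⟨Ps.mul_mem (Ps.inv_mem (hl a ha).1) (hsh c.1 (hl c hc).1 h), (hl c hc).2⟩
    · exact ⟨Ps.mul_mem (Ps.inv_mem (hl a ha).1) (hl c hc).1, S.neg_mem (hl c hc).2⟩
  have hdich := fun h => hsf w (by omega) (hcd h).1 (dl (fun p => p ∉ 𝒟 0) p₁ h l) (hIn h)
    ((length_dl _ _ _ _).trans (by omega)) (hcd h).2 r
  have hval : ∀ h n, sq (dl (fun p => p ∉ 𝒟 0) p₁ h l) n = (p₁ n)⁻¹ • (sq l (n + h) - sq l n) := by
    intro h n
    apply sq_dl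
    intro p hp n m
    rw [not_not] at hp
    rw [h0 p hp n, h0 p hp m]
  by_cases hR : Rare C (s' + 1) (fun n => sq l (r + q * n))
  · exact Or.inr hR
  left
  unfold Rare at hR
  push Not at hR
  obtain ⟨L, B, hB, hcard⟩ := hR
  obtain ⟨k, hk, hkc⟩ := count_shift (fun n hn => (hB n hn).1) hcard
  -- the difference is in C everywhere
  have hall : ∀ n, sq l (r + q * (n + k)) - sq l (r + q * n) ∈ C := by
    rcases hdich (q * k) with h | h
    · intro n
      have h2 := hC (p₁ (r + q * n)) _ (h n)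
      rw [hval, smul_inv_smul] at h2
      rw [show r + q * (n + k) = r + q * n + q * k by ring]
      exact h2
    · exfalso
      have h3 := Rare.mono (Finset.le_sup (f := sf) (Finset.mem_range.2 (show w < W by omega))) h L
        (B.filter fun n => n + k ∈ B) (by
          intro n hn
          rw [Finset.mem_filter] at hn
          refine ⟨(hB n hn.1).1, ?_⟩
          show sq (dl (fun p => p ∉ 𝒟 0) p₁ (q * k) l) (r + q * n) ∈ C
          rw [hval]
          apply hC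
          rw [show r + q * n + q * k = r + q * (n + k) by ring]
          exact C.sub_mem (hB _ hn.2).2 (hB n hn.1).2)
      exact absurd h3 (not_le.2 hkc)
  have hper : ∀ n j, sq l (r + q * (n + k * j)) - sq l (r + q * n) ∈ C := by
    intro n j
    induction j with
    | zero => simp
    | succ j ih =>
      have h4 := C.add_mem (hall (n + k * j)) ih
      rw [sub_add_sub_cancel, show n + k * j + k = n + k * (j + 1) by ring] at h4
      exact h4
  have hBne : B.Nonempty := by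
    rw [← Finset.card_pos]
    have : (0 : ℝ) < B.card := lt_of_le_of_lt (by positivity) hcard
    exact_mod_cast this
  obtain ⟨n₀, hn₀⟩ := hBne
  have h5 : ∀ n, sq l (r + q * n₀ + q * n) ∈ C := by
    apply hPer l hl (q * k) (r + q * n₀) (Nat.mul_pos hq hk)
    intro j
    have h6 := C.add_mem (hper n₀ j) (hB n₀ hn₀).2
    rw [sub_add_cancel] at h6
    rw [show r + q * n₀ + q * k * j = r + q * (n₀ + k * j) by ring]
    exact h6
  intro n
  have h7 := hper n n₀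
  have h8 : sq l (r + q * (n + k * n₀)) ∈ C := by
    have hge : n₀ ≤ n + k * n₀ := le_trans (Nat.le_mul_of_pos_left n₀ hk) (Nat.le_add_left _ _)
    obtain ⟨c, hc⟩ := Nat.exists_eq_add_of_le hge
    rw [hc, show r + q * (n₀ + c) = r + q * n₀ + q * c by ring]
    exact h5 c
  have h9 := C.sub_mem h8 h7
  rwa [sub_sub_cancel] at h9

theorem pet (Ps : Subgroup (ℕ → G)) (hsh : ∀ p ∈ Ps, ∀ r : ℕ, (fun n => p (n + r)) ∈ Ps)
    (W : ℕ) (𝒟 : ℕ → Subgroup (ℕ → G)) (hmono : ∀ w, 𝒟 w ≤ 𝒟 (w + 1))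
    (h0 : ∀ p ∈ 𝒟 0, ∀ n, p n = p 0) (hdd : ∀ w, ∀ p ∈ 𝒟 (w + 1), ∀ h : ℕ, dd h p ∈ 𝒟 w)
    (hW : Ps ≤ 𝒟 W) (S C : AddSubgroup V) (hC : ∀ g : G, ∀ v ∈ C, g • v ∈ C) (q : ℕ) (hq : 0 < q)
    (hPer : Per Ps S C q) (t : ℕ) :
    ∃ s : ℕ, ∀ l, In Ps S l → l.length ≤ t → ∀ r : ℕ,
      (∀ n, sq l (r + q * n) ∈ C) ∨ Rare C s (fun n => sq l (r + q * n)) := by
  classical
  obtain ⟨s, hs⟩ := pet_step Ps hsh W 𝒟 hmono h0 hdd hW S C hC q hq hPer (fun _ => t) t
  refine ⟨s, fun l hl hlt => hs l hl hlt ?_⟩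
  intro w _
  refine ⟨(l.map Prod.fst).toFinset, ?_, ?_⟩
  · refine (List.toFinset_card_le _).trans ?_
    rw [List.length_map]
    exact hlt
  · intro a ha _ _
    refine ⟨a.1, ?_, ?_⟩
    · rw [List.mem_toFinset]
      exact List.mem_map_of_mem ha
    · rw [inv_mul_cancel]
      exact (𝒟 w).one_mem

end Pool.Agent.NilAff
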