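import Pool.Agent.NilAff.Period
import Pool.Agent.NilAff.Pet

set_option autoImplicit false

/-!
# The dichotomy for polynomial orbits
-/

namespace Pool.Agent.NilAff

variable {G V : Type*} [Group G] [AddCommGroup V] [DistribMulAction G V] {d : ℕ}

/-- Proof. `exists_deg`, `exists_per` (with `S` generated by the `f j`), `pet` for `2 m` terms,
applied to the list of the pairs `(g j, f j)` and `(const (g j n₀), - f j)`; `const_mem_PP`. If for one
`n₀ = r + q n` the first alternative holds then the first alternative here holds. -/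
theorem dich [Group.IsNilpotent G] (t : Fin d → G) (hgen : Subgroup.closure (Set.range t) = ⊤)
    (D : ℕ) (C : AddSubgroup V) (hC : ∀ g : G, ∀ v ∈ C, g • v ∈ C) {m : ℕ} (f : Fin m → V)
    (g : Fin m → ℕ → G) (hg : ∀ j, g j ∈ PP t D) :
    ∃ q, 0 < q ∧ ∀ r : ℕ, (∀ n, ∑ j, g j (r + q * n) • f j - ∑ j, g j r • f j ∈ C) ∨
      ∃ s, ∀ n₀ : ℕ, Rare C s
        (fun n => ∑ j, g j (r + q * n) • f j - ∑ j, g j (r + q * n₀) • f j) := by
  classical
  obtain ⟨W, 𝒟, hmono, h0, -, hdd, hW⟩ := exists_deg G D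
  set S : AddSubgroup V := AddSubgroup.closure (Set.range f) with hS
  have hSfg : S.FG := ⟨Finset.univ.image f, by simp [hS]⟩
  obtain ⟨q, hq, hPer⟩ := exists_per t D S C hSfg hC
  refine ⟨q, hq, fun r => ?_⟩
  obtain ⟨s, hs⟩ := pet (PP t D) (fun p hp r => shift_mem_PP t D hp r) W 𝒟 hmono h0 hdd
    ((PP_le_monos t D).trans hW) S C hC q hq hPer (m + m)
  -- the lists
  let l : ℕ → List ((ℕ → G) × V) := fun n₀ =>
    (List.ofFn fun j : Fin m => (g j, f j)) ++
      (List.ofFn fun j : Fin m => ((fun _ => g j n₀ : ℕ → G), - f j))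
  have hlin : ∀ n₀, In (PP t D) S (l n₀) := by
    intro n₀ a ha
    rw [List.mem_append, List.mem_ofFn, List.mem_ofFn] at ha
    rcases ha with ⟨j, rfl⟩ | ⟨j, rfl⟩
    · exact ⟨hg j, AddSubgroup.subset_closure ⟨j, rfl⟩⟩
    · exact ⟨const_mem_PP t hgen D _, S.neg_mem (AddSubgroup.subset_closure ⟨j, rfl⟩)⟩
  have hval : ∀ n₀ n, sq (l n₀) n = ∑ j, g j n • f j - ∑ j, g j n₀ • f j := by
    intro n₀ n
    rw [sq_append]
    unfold sq
    rw [List.map_ofFn, List.map_ofFn, List.sum_ofFn, List.sum_ofFn, sub_eq_add_neg,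
      ← Finset.sum_neg_distrib]
    congr 1
    apply Finset.sum_congr rfl
    intro j _
    show g j n₀ • (- f j) = - (g j n₀ • f j)
    rw [smul_neg]
  by_cases h : ∃ n₀, ∀ n, sq (l (r + q * n₀)) (r + q * n) ∈ C
  · left
    obtain ⟨n₀, h⟩ := h
    intro n
    have h1 := C.sub_mem (h n) (h 0)
    rw [hval, hval, mul_zero, add_zero, sub_sub_sub_cancel_right] at h1
    exact h1
  · right
    push Not at h
    refine ⟨s, fun n₀ => ?_⟩
    rcases hs (l (r + q * n₀)) (hlin _) (by simp [l]) r with h1 | h1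
    · obtain ⟨n, hn⟩ := h n₀
      exact absurd (h1 n) hn
    · have e : (fun n => ∑ j, g j (r + q * n) • f j - ∑ j, g j (r + q * n₀) • f j) =
          fun n => sq (l (r + q * n₀)) (r + q * n) := by
        funext n
        rw [hval]
      rw [e]
      exact h1

end Pool.Agent.NilAff
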