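import Mathlib

set_option autoImplicit false

/-!
# Induction along a polycyclic series of a finitely generated nilpotent group

Paper proof of `fg_nilp_induction`. Let `A i` be the lower central series (`A 0 = ⊤`).
(a) For every `i` there is a finite set `F i ⊆ A i` with `A i ≤ closure (F i) ⊔ A (i + 1)`:
induction on `i`; `F 0 = S`; let `F (i + 1) = {⁅f, s⁆ | f ∈ F i, s ∈ S}` and
`B = closure (F (i + 1)) ⊔ A (i + 2)`. `B ≤ A (i + 1)` is normal, because `⁅b, g⁆ ∈ A (i + 2) ≤ B`
for `b ∈ A (i + 1)`. In `Γ ⧸ B` the image of `f ∈ F i` commutes with the image of `S`, so with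
everything, and the image of `A (i + 1)` is central since `⁅A (i + 1), Γ⁆ = A (i + 2) ≤ B`; so
the image of `A i = closure (F i) ⊔ A (i + 1)` is central, i.e. `A (i + 1) = ⁅A i, Γ⁆ ≤ B`.
(b) `Pr (A i)` by descending induction on `i` (`A c = ⊥` for some `c`): from `Pr (A (i + 1))` deduce
`Pr (A (i + 1) ⊔ closure F)` for all finite `F ⊆ F i` by induction on `F` (`hstep`; for
`A (i + 1) ≤ H ≤ A i`, `x ∈ A i`, `h ∈ H` we have `x * h * x⁻¹ = ⁅x, h⁆ * h` with
`⁅x, h⁆ ∈ A (i + 1) ≤ H`, and the same for `x⁻¹`).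
-/

namespace Pool.Agent.NilAff

open scoped commutatorElement

/-- membership in the kernel of the map to the quotient, for commutators -/
theorem fg_mem_iff {Γ : Type*} [Group Γ] (B : Subgroup Γ) [B.Normal] (a g : Γ) :
    ⁅a, g⁆ ∈ B ↔ Commute (QuotientGroup.mk' B a) (QuotientGroup.mk' B g) := by
  rw [← commutatorElement_eq_one_iff_commute, ← map_commutatorElement]
  exact (QuotientGroup.eq_one_iff _).symm

/-- step (a) of the proof -/
theorem fg_gens {Γ : Type*} [Group Γ] (S : Set Γ) (hS : S.Finite)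
    (hgen : Subgroup.closure S = ⊤) (i : ℕ) :
    ∃ F : Set Γ, F.Finite ∧ F ⊆ (⊤ : Subgroup Γ).lowerCentralSeries i ∧
      (⊤ : Subgroup Γ).lowerCentralSeries i ≤
        Subgroup.closure F ⊔ (⊤ : Subgroup Γ).lowerCentralSeries (i + 1) := by
  induction i with
  | zero =>
    refine ⟨S, hS, fun x _ => Subgroup.mem_top x, ?_⟩
    rw [hgen]
    exact le_sup_of_le_left le_top
  | succ i ih =>
    obtain ⟨F, hF, hFA, hle⟩ := ih
    set A : ℕ → Subgroup Γ := fun n => (⊤ : Subgroup Γ).lowerCentralSeries n with hA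
    have hsucc : ∀ n, A (n + 1) = ⁅A n, (⊤ : Subgroup Γ)⁆ := fun n => rfl
    have hcom : ∀ n, ∀ a ∈ A n, ∀ g : Γ, ⁅a, g⁆ ∈ A (n + 1) := fun n a ha g =>
      Subgroup.commutator_mem_commutator ha (Subgroup.mem_top g)
    set F' : Set Γ := Set.image2 (fun f s => ⁅f, s⁆) F S with hF'
    have hF'A : F' ⊆ A (i + 1) := by
      rintro _ ⟨f, hf, s, _, rfl⟩
      exact hcom i f (hFA hf) s
    set B : Subgroup Γ := Subgroup.closure F' ⊔ A (i + 2) with hB
    have hanti : A (i + 2) ≤ A (i + 1) :=
      Subgroup.lowerCentralSeries_antitone _ (Nat.le_succ (i + 1))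
    have hBA : B ≤ A (i + 1) := sup_le ((Subgroup.closure_le _).2 hF'A) hanti
    have hA2 : A (i + 2) ≤ B := le_sup_right
    have hBn : B.Normal := by
      refine ⟨fun b hb g => ?_⟩
      have h1 : ⁅b, g⁆ ∈ B := hA2 (hcom (i + 1) b (hBA hb) g)
      have h2 : ⁅g, b⁆ ∈ B := by
        rw [← commutatorElement_inv]
        exact B.inv_mem h1
      have h3 : g * b * g⁻¹ = ⁅g, b⁆ * b := by
        rw [commutatorElement_def]
        group
      rw [h3]
      exact B.mul_mem h2 hb
    -- the preimage of the centre of the quotient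
    set C : Subgroup Γ := (Subgroup.center (Γ ⧸ B)).comap (QuotientGroup.mk' B) with hC
    have hmem : ∀ a, a ∈ C ↔ ∀ g, ⁅a, g⁆ ∈ B := by
      intro a
      rw [hC, Subgroup.mem_comap, Subgroup.mem_center_iff]
      constructor
      · intro h g
        rw [fg_mem_iff]
        exact (h _).symm
      · intro h y
        obtain ⟨g, rfl⟩ := QuotientGroup.mk'_surjective B y
        exact (((fg_mem_iff B a g).1 (h g)).eq).symm
    have hFC : F ⊆ C := by
      intro f hf
      rw [SetLike.mem_coe, hmem]
      intro g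
      rw [fg_mem_iff]
      have hS' : S ⊆ (Subgroup.centralizer {QuotientGroup.mk' B f}).comap
          (QuotientGroup.mk' B) := by
        intro s hs
        rw [SetLike.mem_coe, Subgroup.mem_comap, Subgroup.mem_centralizer_iff]
        intro y hy
        rw [Set.mem_singleton_iff] at hy
        rw [hy]
        have h1 : ⁅f, s⁆ ∈ B := by
          apply (le_sup_left : Subgroup.closure F' ≤ B)
          exact Subgroup.subset_closure ⟨f, hf, s, hs, rfl⟩
        exact ((fg_mem_iff B f s).1 h1).eq
      have h2 : (⊤ : Subgroup Γ) ≤ (Subgroup.centralizer {QuotientGroup.mk' B f}).comap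
          (QuotientGroup.mk' B) := by
        rw [← hgen]
        exact (Subgroup.closure_le _).2 hS'
      have h3 := h2 (Subgroup.mem_top g)
      rw [Subgroup.mem_comap, Subgroup.mem_centralizer_iff] at h3
      exact h3 _ rfl
    have hAC : A i ≤ C := by
      refine le_trans hle (sup_le ((Subgroup.closure_le _).2 hFC) ?_)
      intro a ha
      rw [hmem]
      intro g
      exact hA2 (hcom (i + 1) a ha g)
    refine ⟨F', hF.image2 _ hS, hF'A, ?_⟩
    show A (i + 1) ≤ B
    rw [hsucc, Subgroup.commutator_le]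
    intro a ha g _
    exact (hmem a).1 (hAC ha) g

theorem fg_nilp_induction {Γ : Type*} [Group Γ] [Group.IsNilpotent Γ] (S : Set Γ) (hS : S.Finite)
    (hgen : Subgroup.closure S = ⊤) (Pr : Subgroup Γ → Prop) (h0 : Pr ⊥)
    (hstep : ∀ (H : Subgroup Γ) (x : Γ), Pr H → (∀ h ∈ H, x * h * x⁻¹ ∈ H) →
      (∀ h ∈ H, x⁻¹ * h * x ∈ H) → Pr (H ⊔ Subgroup.zpowers x)) : Pr ⊤ := by
  obtain ⟨c, hc⟩ := Subgroup.nilpotent_iff_lowerCentralSeries.1 ‹Group.IsNilpotent Γ›
  set A : ℕ → Subgroup Γ := fun n => (⊤ : Subgroup Γ).lowerCentralSeries n with hA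
  have hcom : ∀ n, ∀ a ∈ A n, ∀ g : Γ, ⁅a, g⁆ ∈ A (n + 1) := fun n a ha g =>
    Subgroup.commutator_mem_commutator ha (Subgroup.mem_top g)
  have hdown : ∀ i, Pr (A (i + 1)) → Pr (A i) := by
    intro i hi
    obtain ⟨F, hF, hFA, hle⟩ := fg_gens S hS hgen i
    have hanti : A (i + 1) ≤ A i := Subgroup.lowerCentralSeries_antitone _ (Nat.le_succ i)
    have key : ∀ F' : Set Γ, F'.Finite → F' ⊆ A i → Pr (A (i + 1) ⊔ Subgroup.closure F') := by
      intro F' hF'
      induction F', hF' using Set.Finite.induction_on with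
      | empty =>
        intro _
        rw [Subgroup.closure_empty, sup_bot_eq]
        exact hi
      | @insert x F'' _ _ ih =>
        intro hsub
        have hx : x ∈ A i := hsub (Set.mem_insert _ _)
        have hF'' : F'' ⊆ A i := fun y hy => hsub (Set.mem_insert_of_mem _ hy)
        have h1 : A (i + 1) ⊔ Subgroup.closure (insert x F'') =
            (A (i + 1) ⊔ Subgroup.closure F'') ⊔ Subgroup.zpowers x := by
          rw [← Set.union_singleton, Subgroup.closure_union, Subgroup.zpowers_eq_closure,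
            sup_assoc]
        rw [h1]
        have hHA : A (i + 1) ⊔ Subgroup.closure F'' ≤ A i :=
          sup_le hanti ((Subgroup.closure_le _).2 hF'')
        have hconj : ∀ (y : Γ), ∀ h ∈ A (i + 1) ⊔ Subgroup.closure F'',
            y * h * y⁻¹ ∈ A (i + 1) ⊔ Subgroup.closure F'' := by
          intro y h hh
          have h2 : ⁅h, y⁆ ∈ A (i + 1) := hcom i h (hHA hh) y
          have h3 : ⁅y, h⁆ ∈ A (i + 1) := by
            rw [← commutatorElement_inv]
            exact (A (i + 1)).inv_mem h2
          have h4 : y * h * y⁻¹ = ⁅y, h⁆ * h := by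
            rw [commutatorElement_def]
            group
          rw [h4]
          exact Subgroup.mul_mem _ (le_sup_left (a := A (i + 1)) h3) hh
        refine hstep _ x (ih hF'') (hconj x) fun h hh => ?_
        have h5 := hconj x⁻¹ h hh
        rwa [inv_inv] at h5
    have h6 := key F hF hFA
    have h7 : A (i + 1) ⊔ Subgroup.closure F = A i := by
      apply le_antisymm
      · exact sup_le hanti ((Subgroup.closure_le _).2 hFA)
      · rw [sup_comm]
        exact hle
    rwa [h7] at h6
  have hall : ∀ k, k ≤ c → Pr (A (c - k)) := by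
    intro k
    induction k with
    | zero =>
      intro _
      have h8 : A (c - 0) = ⊥ := hc
      rw [h8]
      exact h0
    | succ k ih =>
      intro hk
      apply hdown
      have h9 : c - (k + 1) + 1 = c - k := by omega
      rw [h9]
      exact ih (by omega)
  have h10 := hall c le_rfl
  have h11 : A (c - c) = ⊤ := by
    rw [Nat.sub_self]
    rfl
  rwa [h11] at h10

end Pool.Agent.NilAff
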