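import Pool.Agent.NilAff.Orb
import Pool.Agent.NilAff.Clos
import Pool.Agent.Lib.AffineDense

set_option autoImplicit false

/-!
# Pointwise convergence for continuous functions along nilpotent groups of affine maps
-/

open MeasureTheory Filter Topology Finset
open scoped ENNReal NNReal ComplexConjugate

namespace Pool.Agent.NilAff

open Pool.Lib.Erg Pool.Lib.Weyl Pool.Lib.AffAlg Pool.Lib.APoly Pool.Lib.AffMeas

universe u

variable {X : Type u} [AddCommGroup X] [TopologicalSpace X] [IsTopologicalAddGroup X]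
  [CompactSpace X] [T2Space X] [MeasurableSpace X] [BorelSpace X]

/-- **Convergence for characters.** -/
theorem char_conv' (μ : Measure X) [μ.IsAddHaarMeasure] [IsProbabilityMeasure μ] {d m : ℕ}
    (A : Fin d → X ≃ₜ+ X) (b : Fin d → X) (T : Fin d → Equiv.Perm X)
    (hT : ∀ i x, T i x = A i x + b i) [Group.IsNilpotent (Subgroup.closure (Set.range T))]
    (P : Fin d → Fin m → Polynomial ℤ) (χ : Fin m → Ch X) :
    ∀ᵐ x ∂μ, ∃ L, Tendsto (avg fun n : ℕ => ∏ j, e (χ j (gel T P j (n : ℤ) x))) atTop (𝓝 L) := by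
  classical
  obtain ⟨q, hq, hd⟩ := orbit_alt' A b T hT P χ
  have hprod : ∀ (n : ℤ) x, ∏ j, e (χ j (gel T P j n x)) = e (∑ j, χ j (gel T P j n x)) := by
    intro n x
    have : ∀ s : Finset (Fin m), ∏ j ∈ s, e (χ j (gel T P j n x)) =
        e (∑ j ∈ s, χ j (gel T P j n x)) := by
      intro s
      induction s using Finset.induction_on with
      | empty => simp [e_zero]
      | insert a s ha ih => rw [Finset.prod_insert ha, Finset.sum_insert ha, e_add, ih]
    exact this _
  have hres : ∀ r < q, ∀ᵐ x ∂μ, ∃ L, Tendsto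
      (avg fun t : ℕ => ∏ j, e (χ j (gel T P j ((q * t + r : ℕ) : ℤ) x))) atTop (𝓝 L) := by
    intro r _
    rcases hd r with ⟨θ, ⟨k, hk⟩, hθ⟩ | ⟨γ, c, s, hγ, hs⟩
    · apply Eventually.of_forall
      intro x
      obtain ⟨L, hL⟩ := weyl k θ hk
      refine ⟨e (∑ j, χ j (gel T P j (r : ℤ) x)) * L, ?_⟩
      refine (hL.const_mul _).congr fun N => ?_
      rw [← avg_mul_left]
      congr 1
      funext n
      rw [hprod, hθ n x, e_add]
    · filter_upwards [sparse_conv μ γ c s hs] with x hx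
      refine ⟨0, hx.congr fun N => ?_⟩
      congr 1
      funext n
      rw [hprod, hγ n x]
  have hall : ∀ᵐ x ∂μ, ∀ r : Fin q, ∃ L, Tendsto
      (avg fun t : ℕ => ∏ j, e (χ j (gel T P j ((q * t + r : ℕ) : ℤ) x))) atTop (𝓝 L) :=
    ae_all_iff.2 fun r => hres r r.2
  filter_upwards [hall] with x hx
  apply avg_residue _ 1 (fun n => ?_) q hq
  · intro r hr
    exact hx ⟨r, hr⟩
  · rw [norm_prod]
    apply le_of_eq
    apply Finset.prod_eq_one
    intro j _
    exact norm_e _

/-- **Convergence for trigonometric polynomials.** -/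
theorem trig_conv' (μ : Measure X) [μ.IsAddHaarMeasure] [IsProbabilityMeasure μ] {d m : ℕ}
    (A : Fin d → X ≃ₜ+ X) (b : Fin d → X) (T : Fin d → Equiv.Perm X)
    (hT : ∀ i x, T i x = A i x + b i)
    [Group.IsNilpotent (Subgroup.closure (Set.range T))] (P : Fin d → Fin m → Polynomial ℤ)
    (φ : Fin m → X → ℂ) (hφ : ∀ j, IsTrig (φ j)) :
    ∀ᵐ x ∂μ, ∃ L, Tendsto (avg fun n : ℕ => ∏ j, φ j (gel T P j (n : ℤ) x)) atTop (𝓝 L) := by
  classical
  have h1 : ∀ j, ∃ c : Ch X →₀ ℂ, ∀ x, φ j x = ∑ χ ∈ c.support, c χ * e (χ x) := by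
    intro j
    obtain ⟨c, hc⟩ := (Finsupp.mem_span_range_iff_exists_finsupp).1 (hφ j)
    refine ⟨c, fun x => ?_⟩
    rw [← hc, Finsupp.sum, Finset.sum_apply]
    rfl
  choose c hc using h1
  have h2 : ∀ (n : ℤ) x, ∏ j, φ j (gel T P j n x) =
      ∑ χ ∈ Fintype.piFinset fun j => (c j).support,
        (∏ j, c j (χ j)) * ∏ j, e (χ j (gel T P j n x)) := by
    intro n x
    simp_rw [hc]
    rw [Finset.prod_univ_sum]
    simp_rw [Finset.prod_mul_distrib]
  have h3 : ∀ᵐ x ∂μ, ∀ χ ∈ Fintype.piFinset fun j => (c j).support,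
      ∃ L, Tendsto (avg fun n : ℕ => ∏ j, e (χ j (gel T P j (n : ℤ) x))) atTop (𝓝 L) := by
    rw [Filter.eventually_all_finset]
    intro χ _
    exact char_conv' μ A b T hT P χ
  filter_upwards [h3] with x hx
  choose! L hL using hx
  refine ⟨∑ χ ∈ Fintype.piFinset fun j => (c j).support, (∏ j, c j (χ j)) * L χ, ?_⟩
  have h4 := tendsto_finset_sum (Fintype.piFinset fun j => (c j).support)
    fun χ hχ => (hL χ hχ).const_mul (∏ j, c j (χ j))
  refine h4.congr fun N => ?_
  simp_rw [h2, ← avg_mul_left]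
  rw [avg_sum]

end Pool.Agent.NilAff
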