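import Pool.Agent.NilAff.Fg

set_option autoImplicit false

/-!
# Noetherian modules of finitely generated nilpotent groups (P. Hall)

`Noe H A`: ascending chains of `H`-stable subgroups of `A` stabilise.

Paper proof of `hall_step` (Hilbert's basis theorem). `B` is the subgroup generated by all
`x ^ k • a`, `k ∈ ℤ`, `a ∈ A`; `B_n` (`n ∈ ℕ`) is the subgroup generated by the `x ^ k • a`,
`0 ≤ k < n`. `B` and the `B_n` are `H`-stable (`h • x ^ k • a = x ^ k • (x ^ (-k) * h * x ^ k) • a`), `B` is stable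
under `x` and `x⁻¹`, so under `H ⊔ zpowers x`. For a subgroup `L ≤ B` stable under `H`, `x`, `x⁻¹` let
`ℓ_n L = {a ∈ A | ∃ w ∈ B_n, x ^ n • a + w ∈ L}`. It is a subgroup of `A`, `H`-stable (for `h ∈ H`
write `h = x ^ (-n) * h' * x ^ n` with `h' ∈ H` and apply `h'`), `ℓ_n L ≤ ℓ_(n+1) L` (apply `x`) and
`ℓ_n` is monotone in `L`. For a chain `L_i` choose `N` such that the diagonal chain `ℓ_n L_n` is
constant for `n ≥ N` (then `ℓ_n L_i = ℓ_N L_N` for all `n, i ≥ N`) and `I ≥ N` such that for every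
`n < N` the chain `i ↦ ℓ_n L_i` is constant for `i ≥ I`. So `ℓ_n L_i = ℓ_n L_I` for all `i ≥ I` and
all `n`. Then `L_i ⊓ B_n ≤ L_I` by induction on `n`: `v ∈ L_i ⊓ B_(n+1)` is
`x ^ n • a + w` with `a ∈ A`, `w ∈ B_n`, so `a ∈ ℓ_n L_i = ℓ_n L_I`, `x ^ n • a + w' ∈ L_I ≤ L_i` and
`w - w' ∈ L_i ⊓ B_n ≤ L_I`. Finally for `v ∈ L_i ≤ B` some `x ^ k • v` (`k ∈ ℕ`) lies in some `B_n`.
-/

namespace Pool.Agent.NilAff

variable {Γ M : Type*} [Group Γ] [AddCommGroup M] [DistribMulAction Γ M]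

/-- `A` is stable under `H`. -/
def Stb (H : Subgroup Γ) (A : AddSubgroup M) : Prop := ∀ h ∈ H, ∀ v ∈ A, h • v ∈ A

/-- Ascending chains of `H`-stable subgroups of `A` stabilise. -/
def Noe (H : Subgroup Γ) (A : AddSubgroup M) : Prop :=
  ∀ L : ℕ → AddSubgroup M, Monotone L → (∀ n, L n ≤ A) → (∀ n, Stb H (L n)) →
    ∃ N, ∀ n, N ≤ n → L n = L N

/-- The subgroup generated by the `x ^ k • a`, `k < n`, `a ∈ A`. -/
private def Bn (A : AddSubgroup M) (x : Γ) (n : ℕ) : AddSubgroup M :=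
  AddSubgroup.closure {v | ∃ k : ℕ, k < n ∧ ∃ a ∈ A, v = x ^ k • a}

/-- The subgroup generated by the `x ^ k • a`, `k ∈ ℤ`, `a ∈ A`. -/
private def BB (A : AddSubgroup M) (x : Γ) : AddSubgroup M :=
  AddSubgroup.closure {v | ∃ k : ℤ, ∃ a ∈ A, v = x ^ k • a}

/-- Maps of subgroups by group elements, checked on generators. -/
private lemma smul_closure_le {S : Set M} {K : AddSubgroup M} (g : Γ) (h : ∀ v ∈ S, g • v ∈ K) :
    ∀ v ∈ AddSubgroup.closure S, g • v ∈ K := by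
  intro v hv
  induction hv using AddSubgroup.closure_induction with
  | mem v hv => exact h v hv
  | zero => rw [smul_zero]; exact K.zero_mem
  | add u v _ _ hu hv => rw [smul_add]; exact K.add_mem hu hv
  | neg v _ hv => rw [smul_neg]; exact K.neg_mem hv

private lemma conj_zpow {H : Subgroup Γ} {x : Γ} (h1 : ∀ h ∈ H, x * h * x⁻¹ ∈ H)
    (h2 : ∀ h ∈ H, x⁻¹ * h * x ∈ H) (k : ℤ) : ∀ h ∈ H, x ^ k * h * (x ^ k)⁻¹ ∈ H := by
  have hx : x ∈ Subgroup.normalizer (H : Set Γ) := by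
    rw [Subgroup.mem_normalizer_iff]
    intro h
    refine ⟨h1 h, fun hh => ?_⟩
    have := h2 _ hh
    rwa [show x⁻¹ * (x * h * x⁻¹) * x = h by group] at this
  intro h hh
  have := zpow_mem hx k
  rw [Subgroup.mem_normalizer_iff] at this
  exact (this h).1 hh

private lemma stb_sup {H : Subgroup Γ} {x : Γ} {B : AddSubgroup M} (hH : Stb H B)
    (hx : ∀ v ∈ B, x • v ∈ B) (hx' : ∀ v ∈ B, x⁻¹ • v ∈ B) :
    Stb (H ⊔ Subgroup.zpowers x) B := by
  let K : Subgroup Γ :=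
    { carrier := {g | ∀ v, v ∈ B ↔ g • v ∈ B}
      mul_mem' := by
        intro a b ha hb v
        rw [mul_smul]
        exact (hb v).trans (ha _)
      one_mem' := by intro v; rw [one_smul]
      inv_mem' := by
        intro a ha v
        have := ha (a⁻¹ • v)
        rw [smul_inv_smul] at this
        exact this.symm }
  have h1 : H ≤ K := by
    intro h hh v
    refine ⟨hH h hh v, fun hv => ?_⟩
    have := hH h⁻¹ (H.inv_mem hh) _ hv
    rwa [inv_smul_smul] at this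
  have h2 : Subgroup.zpowers x ≤ K := by
    rw [Subgroup.zpowers_le]
    intro v
    refine ⟨hx v, fun hv => ?_⟩
    have := hx' _ hv
    rwa [inv_smul_smul] at this
  have h3 : H ⊔ Subgroup.zpowers x ≤ K := sup_le h1 h2
  intro g hg v hv
  exact (h3 hg v).1 hv

private lemma bn_mono {A : AddSubgroup M} {x : Γ} {n m : ℕ} (h : n ≤ m) : Bn A x n ≤ Bn A x m := by
  apply AddSubgroup.closure_mono
  rintro v ⟨k, hk, a, ha, rfl⟩
  exact ⟨k, by omega, a, ha, rfl⟩

private lemma bn_pow {A : AddSubgroup M} {x : Γ} (n j : ℕ) : ∀ v ∈ Bn A x n, x ^ j • v ∈ Bn A x (n + j) := by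
  apply smul_closure_le
  rintro v ⟨k, hk, a, ha, rfl⟩
  apply AddSubgroup.subset_closure
  exact ⟨j + k, by omega, a, ha, by rw [smul_smul, ← pow_add]⟩

private lemma bn_stb {H : Subgroup Γ} {A : AddSubgroup M} (hA : Stb H A) {x : Γ}
    (h1 : ∀ h ∈ H, x * h * x⁻¹ ∈ H) (h2 : ∀ h ∈ H, x⁻¹ * h * x ∈ H) (n : ℕ) :
    Stb H (Bn A x n) := by
  intro h hh
  apply smul_closure_le
  rintro v ⟨k, hk, a, ha, rfl⟩
  apply AddSubgroup.subset_closure
  have h3 := conj_zpow h1 h2 (-(k : ℤ)) h hh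
  refine ⟨k, hk, _, hA _ h3 a ha, ?_⟩
  rw [smul_smul, smul_smul]
  congr 1
  rw [zpow_neg, zpow_natCast]
  group

private lemma bb_stb {H : Subgroup Γ} {A : AddSubgroup M} (hA : Stb H A) {x : Γ}
    (h1 : ∀ h ∈ H, x * h * x⁻¹ ∈ H) (h2 : ∀ h ∈ H, x⁻¹ * h * x ∈ H) :
    Stb (H ⊔ Subgroup.zpowers x) (BB A x) := by
  apply stb_sup
  · intro h hh
    apply smul_closure_le
    rintro v ⟨k, a, ha, rfl⟩
    apply AddSubgroup.subset_closure
    have h3 := conj_zpow h1 h2 (-k) h hh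
    refine ⟨k, _, hA _ h3 a ha, ?_⟩
    rw [smul_smul, smul_smul]
    congr 1
    rw [zpow_neg]
    group
  · apply smul_closure_le
    rintro v ⟨k, a, ha, rfl⟩
    apply AddSubgroup.subset_closure
    exact ⟨1 + k, a, ha, by rw [smul_smul, zpow_add, zpow_one]⟩
  · apply smul_closure_le
    rintro v ⟨k, a, ha, rfl⟩
    apply AddSubgroup.subset_closure
    exact ⟨-1 + k, a, ha, by rw [smul_smul, zpow_add, zpow_neg, zpow_one]⟩

private lemma bn_succ {A : AddSubgroup M} {x : Γ} (n : ℕ) :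
    ∀ v ∈ Bn A x (n + 1), ∃ a ∈ A, ∃ w ∈ Bn A x n, v = x ^ n • a + w := by
  intro v hv
  induction hv using AddSubgroup.closure_induction with
  | mem v hv =>
    obtain ⟨k, hk, a, ha, rfl⟩ := hv
    rcases Nat.lt_or_ge k n with h | h
    · exact ⟨0, A.zero_mem, x ^ k • a, AddSubgroup.subset_closure ⟨k, h, a, ha, rfl⟩, by simp⟩
    · have : k = n := by omega
      subst this
      exact ⟨a, ha, 0, AddSubgroup.zero_mem _, by simp⟩
  | zero => exact ⟨0, A.zero_mem, 0, AddSubgroup.zero_mem _, by simp⟩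
  | add u v _ _ hu hv =>
    obtain ⟨a, ha, w, hw, rfl⟩ := hu
    obtain ⟨b, hb, w', hw', rfl⟩ := hv
    exact ⟨a + b, A.add_mem ha hb, w + w', AddSubgroup.add_mem _ hw hw', by rw [smul_add]; abel⟩
  | neg v _ hv =>
    obtain ⟨a, ha, w, hw, rfl⟩ := hv
    exact ⟨-a, A.neg_mem ha, -w, AddSubgroup.neg_mem _ hw, by rw [smul_neg]; abel⟩

private lemma bb_bn {A : AddSubgroup M} {x : Γ} : ∀ v ∈ BB A x, ∃ k n : ℕ, x ^ k • v ∈ Bn A x n := by
  intro v hv
  induction hv using AddSubgroup.closure_induction with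
  | mem v hv =>
    obtain ⟨j, a, ha, rfl⟩ := hv
    refine ⟨j.natAbs, ((j.natAbs : ℤ) + j).toNat + 1, ?_⟩
    apply AddSubgroup.subset_closure
    refine ⟨((j.natAbs : ℤ) + j).toNat, by omega, a, ha, ?_⟩
    rw [smul_smul]
    congr 1
    rw [← zpow_natCast, ← zpow_natCast, ← zpow_add, Int.toNat_of_nonneg (by omega)]
  | zero => exact ⟨0, 0, by rw [smul_zero]; exact AddSubgroup.zero_mem _⟩
  | add u v _ _ hu hv =>
    obtain ⟨k1, n1, hu⟩ := hu
    obtain ⟨k2, n2, hv⟩ := hv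
    refine ⟨k1 + k2, n1 + n2 + k1 + k2, ?_⟩
    rw [smul_add]
    apply AddSubgroup.add_mem
    · have h1 := bn_pow n1 k2 _ hu
      rw [smul_smul, ← pow_add, add_comm k2 k1] at h1
      exact bn_mono (by omega) h1
    · have h1 := bn_pow n2 k1 _ hv
      rw [smul_smul, ← pow_add] at h1
      exact bn_mono (by omega) h1
  | neg v _ hv =>
    obtain ⟨k, n, hv⟩ := hv
    exact ⟨k, n, by rw [smul_neg]; exact AddSubgroup.neg_mem _ hv⟩

/-- Leading coefficients. -/
private def ell (A : AddSubgroup M) (x : Γ) (n : ℕ) (L : AddSubgroup M) : AddSubgroup M where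
  carrier := {a | a ∈ A ∧ ∃ w ∈ Bn A x n, x ^ n • a + w ∈ L}
  zero_mem' := ⟨A.zero_mem, 0, AddSubgroup.zero_mem _, by simp⟩
  add_mem' := by
    rintro a b ⟨ha, w, hw, hL⟩ ⟨hb, w', hw', hL'⟩
    refine ⟨A.add_mem ha hb, w + w', AddSubgroup.add_mem _ hw hw', ?_⟩
    have := L.add_mem hL hL'
    rw [smul_add]
    rwa [add_add_add_comm] at this
  neg_mem' := by
    rintro a ⟨ha, w, hw, hL⟩
    refine ⟨A.neg_mem ha, -w, AddSubgroup.neg_mem _ hw, ?_⟩
    have := L.neg_mem hL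
    rw [smul_neg]
    rwa [neg_add] at this

private lemma ell_le {A : AddSubgroup M} {x : Γ} (n : ℕ) (L : AddSubgroup M) : ell A x n L ≤ A :=
  fun _ ha => ha.1

private lemma ell_mono {A : AddSubgroup M} {x : Γ} (n : ℕ) {L L' : AddSubgroup M} (h : L ≤ L') :
    ell A x n L ≤ ell A x n L' := by
  rintro a ⟨ha, w, hw, hL⟩
  exact ⟨ha, w, hw, h hL⟩

private lemma ell_succ {A : AddSubgroup M} {x : Γ} (n : ℕ) {L : AddSubgroup M}
    (hx : ∀ v ∈ L, x • v ∈ L) : ell A x n L ≤ ell A x (n + 1) L := by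
  rintro a ⟨ha, w, hw, hL⟩
  refine ⟨ha, x • w, ?_, ?_⟩
  · have := bn_pow n 1 w hw
    rwa [pow_one] at this
  · have := hx _ hL
    rwa [smul_add, smul_smul, ← pow_succ'] at this

private lemma ell_stb {H : Subgroup Γ} {A : AddSubgroup M} (hA : Stb H A) {x : Γ}
    (h1 : ∀ h ∈ H, x * h * x⁻¹ ∈ H) (h2 : ∀ h ∈ H, x⁻¹ * h * x ∈ H) (n : ℕ) {L : AddSubgroup M}
    (hL : Stb H L) : Stb H (ell A x n L) := by
  rintro h hh a ⟨ha, w, hw, haw⟩
  have h3 := conj_zpow h1 h2 (n : ℤ) h hh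
  rw [zpow_natCast] at h3
  refine ⟨hA h hh a ha, _, bn_stb hA h1 h2 n _ h3 w hw, ?_⟩
  have h4 := hL _ h3 _ haw
  rw [smul_add, smul_smul, inv_mul_cancel_right, mul_smul] at h4
  exact h4

theorem hall_step {H : Subgroup Γ} {A : AddSubgroup M} (hA : Stb H A) (hN : Noe H A) (x : Γ)
    (h1 : ∀ h ∈ H, x * h * x⁻¹ ∈ H) (h2 : ∀ h ∈ H, x⁻¹ * h * x ∈ H) :
    ∃ B : AddSubgroup M, A ≤ B ∧ Stb (H ⊔ Subgroup.zpowers x) B ∧
      Noe (H ⊔ Subgroup.zpowers x) B := by
  refine ⟨BB A x, ?_, bb_stb hA h1 h2, ?_⟩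
  · intro a ha
    apply AddSubgroup.subset_closure
    exact ⟨0, a, ha, by rw [zpow_zero, one_smul]⟩
  intro L hLm hLB hLs
  have hxm : x ∈ H ⊔ Subgroup.zpowers x :=
    (le_sup_right : Subgroup.zpowers x ≤ _) (Subgroup.mem_zpowers x)
  have hLH : ∀ n, Stb H (L n) := fun n h hh v hv =>
    hLs n h ((le_sup_left : H ≤ _) hh) v hv
  have hLx : ∀ n, ∀ v ∈ L n, x • v ∈ L n := fun n v hv => hLs n x hxm v hv
  have hell : ∀ n i, Stb H (ell A x n (L i)) := fun n i => ell_stb hA h1 h2 n (hLH i)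
  have hmono1 : ∀ i, Monotone fun n => ell A x n (L i) := fun i =>
    monotone_nat_of_le_succ fun n => ell_succ n (hLx i)
  have hmono2 : ∀ n, Monotone fun i => ell A x n (L i) := fun n i j hij => ell_mono n (hLm hij)
  obtain ⟨N, hNd⟩ := hN (fun n => ell A x n (L n))
    (monotone_nat_of_le_succ fun n => (hmono1 n (Nat.le_succ n)).trans (hmono2 (n + 1) (Nat.le_succ n)))
    (fun n => ell_le n _) (fun n => hell n n)
  have hNd' : ∀ n i, N ≤ n → N ≤ i → ell A x n (L i) = ell A x N (L N) := by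
    intro n i hn hi
    apply le_antisymm
    · have h3 : ell A x n (L i) ≤ ell A x (max n i) (L (max n i)) :=
        (hmono1 i (le_max_left n i)).trans (hmono2 _ (le_max_right n i))
      rw [← hNd (max n i) (hn.trans (le_max_left _ _))]
      exact h3
    · exact (hmono1 N hn).trans (hmono2 n hi)
  have hI : ∀ n, ∃ I, ∀ i, I ≤ i → ell A x n (L i) = ell A x n (L I) := fun n =>
    hN (fun i => ell A x n (L i)) (hmono2 n) (fun i => ell_le n _) (fun i => hell n i)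
  choose I hI using hI
  set J := max N ((Finset.range N).sup I) with hJ
  have hJN : N ≤ J := le_max_left _ _
  have hJI : ∀ n, n < N → I n ≤ J := fun n hn =>
    (Finset.le_sup (f := I) (Finset.mem_range.2 hn)).trans (le_max_right _ _)
  have hall : ∀ n i, J ≤ i → ell A x n (L i) = ell A x n (L J) := by
    intro n i hi
    rcases Nat.lt_or_ge n N with h | h
    · rw [hI n i ((hJI n h).trans hi), hI n J (hJI n h)]
    · rw [hNd' n i h (hJN.trans hi), hNd' n J h hJN]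
  have hind : ∀ i, J ≤ i → ∀ n, ∀ v ∈ L i, v ∈ Bn A x n → v ∈ L J := by
    intro i hi n
    induction n with
    | zero =>
      intro v _ hv
      have : Bn A x 0 = ⊥ := by
        rw [Bn, AddSubgroup.closure_eq_bot_iff]
        rintro w ⟨k, hk, -⟩
        exact absurd hk (Nat.not_lt_zero k)
      rw [this, AddSubgroup.mem_bot] at hv
      rw [hv]
      exact (L J).zero_mem
    | succ n ih =>
      intro v hv hvB
      obtain ⟨a, ha, w, hw, rfl⟩ := bn_succ n v hvB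
      have h3 : a ∈ ell A x n (L i) := ⟨ha, w, hw, hv⟩
      rw [hall n i hi] at h3
      obtain ⟨-, w', hw', h4⟩ := h3
      have h5 : w - w' ∈ L i := by
        have := (L i).sub_mem hv (hLm hi h4)
        rwa [add_sub_add_left_eq_sub] at this
      have h6 := ih _ h5 (AddSubgroup.sub_mem _ hw hw')
      have h7 := (L J).add_mem h4 h6
      rwa [show x ^ n • a + w' + (w - w') = x ^ n • a + w by abel] at h7
  refine ⟨J, fun i hi => le_antisymm ?_ (hLm hi)⟩
  intro v hv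
  obtain ⟨k, n, hkn⟩ := bb_bn v (hLB i hv)
  have hxk : x ^ k ∈ H ⊔ Subgroup.zpowers x := pow_mem hxm k
  have h3 := hind i hi n _ (hLs i _ hxk v hv) hkn
  have h4 := hLs J _ (inv_mem hxk) _ h3
  rwa [inv_smul_smul] at h4

/-- A finitely generated abelian group satisfies the ascending chain condition. -/
private lemma noe_bot (A : AddSubgroup M) (hA : A.FG) : Noe (⊥ : Subgroup Γ) A := by
  intro L hLm hLA _
  set A' : Submodule ℤ M := AddSubgroup.toIntSubmodule A with hA'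
  have hfg : A'.FG := by
    rw [Submodule.fg_iff_addSubgroup_fg]
    exact hA
  have hnoe : IsNoetherian ℤ A' := isNoetherian_of_fg_of_noetherian A' hfg
  have h1 := monotone_stabilizes_iff_noetherian.2 hnoe
  obtain ⟨N, hN⟩ := h1 ⟨fun n => (AddSubgroup.toIntSubmodule (L n)).comap A'.subtype,
    fun n m hnm v hv => hLm hnm hv⟩
  refine ⟨N, fun n hn => le_antisymm ?_ (hLm hn)⟩
  intro v hv
  have h2 := hN n hn
  have h3 : (⟨v, hLA n hv⟩ : A') ∈ (AddSubgroup.toIntSubmodule (L n)).comap A'.subtype := hv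
  have h4 : (⟨v, hLA n hv⟩ : A') ∈ (AddSubgroup.toIntSubmodule (L N)).comap A'.subtype := by
    have h5 : (AddSubgroup.toIntSubmodule (L N)).comap A'.subtype =
      (AddSubgroup.toIntSubmodule (L n)).comap A'.subtype := h2
    rw [h5]
    exact h3
  exact h4

/-- Proof: `fg_nilp_induction` with `Pr H = ∃ B, A ≤ B ∧ Stb H B ∧ Noe H B`; `Pr ⊥` by `B = A`:
a finitely generated abelian group is a noetherian `ℤ`-module. -/
theorem hall [Group.IsNilpotent Γ] (S : Set Γ) (hS : S.Finite) (hgen : Subgroup.closure S = ⊤)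
    (A : AddSubgroup M) (hA : A.FG) : ∃ B : AddSubgroup M, A ≤ B ∧ Stb (⊤ : Subgroup Γ) B ∧
      Noe (⊤ : Subgroup Γ) B := by
  refine fg_nilp_induction S hS hgen (fun H => ∃ B : AddSubgroup M, A ≤ B ∧ Stb H B ∧ Noe H B)
    ⟨A, le_rfl, ?_, noe_bot A hA⟩ ?_
  · intro h hh v hv
    rw [Subgroup.mem_bot] at hh
    rw [hh, one_smul]
    exact hv
  · rintro H x ⟨B, hAB, hB, hBN⟩ h1 h2
    obtain ⟨B', hBB', h3, h4⟩ := hall_step hB hBN x h1 h2
    exact ⟨B', hAB.trans hBB', h3, h4⟩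

end Pool.Agent.NilAff
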