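import Pool.Agent.NilAff.Dich
import Pool.Agent.NilAff.AR
import Pool.Agent.Lib.AffineMeas

set_option autoImplicit false

/-!
# Orbits of characters under nilpotent groups of affine maps of compact abelian groups

Paper proof of `orbit_alt'`. `G = closure (range T)` acts on `V = (X → ℝ/ℤ)` by
`(g • f) x = f (g⁻¹ x)` (define a type synonym with this `DistribMulAction`), `C` the constant
functions, `t i = T i` as an element of `G`. Apply `dich` to `f j = χ j` and
`g j n = (gelG T P j n)⁻¹ ∈ PP t D` (`pow_mem_PP`, `D` the maximal degree): the sum of the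
`g j n • f j` is the function `x ↦ ∑ j, χ j (gel T P j n x)`. In the first alternative the sequences
`n ↦ g j (r + q n)` satisfy `Dv s` (`gel_Dv` in Lib/AffineLin.lean), and `phase` gives the polynomial
sequence of constant functions; evaluate at `0` (`PD_map`). In the second alternative: every `g` in the
group is affine, i.e. `χ (g x) = γ x + c` for a character `γ` and a constant `c` (closure induction),
which gives `γ n`, `c n`; if `γ n = γ n₀` then the difference of the functions at the times `n`, `n₀`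
is constant, so `Rare` gives the estimate (for `S` nonempty choose `n₀ ∈ S`).
-/

namespace Pool.Agent.NilAff

open Pool.Lib.PolySeq Pool.Lib.APoly Pool.Lib.AffAlg Pool.Lib.AffMeas

universe u

section Fn

/-- Functions with values in the circle, with the action of permutations. -/
def Fn (X : Type u) : Type u := X → UnitAddCircle

instance instAddCommGroupFn (X : Type u) : AddCommGroup (Fn X) :=
  inferInstanceAs (AddCommGroup (X → UnitAddCircle))

instance instActFn {X : Type u} (H : Subgroup (Equiv.Perm X)) : DistribMulAction H (Fn X) where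
  smul g f := fun x => f ((g : Equiv.Perm X)⁻¹ x)
  one_smul f := rfl
  mul_smul g h f := by
    funext x
    change f (((g * h : H) : Equiv.Perm X)⁻¹ x) = f ((h : Equiv.Perm X)⁻¹ ((g : Equiv.Perm X)⁻¹ x))
    rw [Subgroup.coe_mul, mul_inv_rev, Equiv.Perm.mul_apply]
  smul_zero g := rfl
  smul_add g f f' := rfl

lemma smul_Fn {X : Type u} {H : Subgroup (Equiv.Perm X)} (g : H) (f : Fn X) (x : X) :
    (g • f) x = f ((g : Equiv.Perm X)⁻¹ x) := rfl

/-- Evaluation at a point. -/
def evF {X : Type u} (x : X) : Fn X →+ UnitAddCircle where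
  toFun f := f x
  map_zero' := rfl
  map_add' _ _ := rfl

lemma evF_apply {X : Type u} (x : X) (f : Fn X) : evF x f = f x := rfl

/-- The constant functions. -/
def cst (X : Type u) : AddSubgroup (Fn X) where
  carrier := {f | ∃ c : UnitAddCircle, ∀ x, evF x f = c}
  zero_mem' := ⟨0, fun x => map_zero _⟩
  add_mem' := by
    rintro f f' ⟨c, hc⟩ ⟨c', hc'⟩
    exact ⟨c + c', fun x => by rw [map_add, hc, hc']⟩
  neg_mem' := by
    rintro f ⟨c, hc⟩
    exact ⟨-c, fun x => by rw [map_neg, hc]⟩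

lemma mem_cst {X : Type u} {f : Fn X} : f ∈ cst X ↔ ∃ c : UnitAddCircle, ∀ x, evF x f = c := Iff.rfl

lemma smul_cst {X : Type u} {H : Subgroup (Equiv.Perm X)} (g : H) (f : Fn X) (hf : f ∈ cst X) :
    g • f = f := by
  obtain ⟨c, hc⟩ := hf
  funext x
  exact (hc ((g : Equiv.Perm X)⁻¹ x)).trans (hc x).symm

end Fn

variable {X : Type u} [AddCommGroup X] [TopologicalSpace X] [IsTopologicalAddGroup X]

/-- The composition of a character with the map is a character plus a constant. -/
def AffP (g : Equiv.Perm X) : Prop :=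
  ∀ χ : Ch X, ∃ γ : Ch X, ∃ c : UnitAddCircle, ∀ x, χ (g x) = γ x + c

omit [IsTopologicalAddGroup X] in
lemma AffP.mul {g h : Equiv.Perm X} (hg : AffP g) (hh : AffP h) : AffP (g * h) := by
  intro χ
  obtain ⟨γ, c, h1⟩ := hg χ
  obtain ⟨γ', c', h2⟩ := hh γ
  refine ⟨γ', c' + c, fun x => ?_⟩
  rw [Equiv.Perm.mul_apply, h1, h2, add_assoc]

omit [IsTopologicalAddGroup X] in
lemma affP_gen (A : X ≃ₜ+ X) (b : X) (T : Equiv.Perm X) (hT : ∀ x, T x = A x + b) : AffP T := by
  intro χ
  refine ⟨χ.comp (A : ContinuousAddMonoidHom X X), χ b, fun x => ?_⟩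
  rw [hT, map_add]
  rfl

omit [IsTopologicalAddGroup X] in
lemma affP_gen_inv (A : X ≃ₜ+ X) (b : X) (T : Equiv.Perm X) (hT : ∀ x, T x = A x + b) :
    AffP T⁻¹ := by
  apply affP_gen A.symm (- A.symm b)
  intro x
  rw [Equiv.Perm.inv_eq_iff_eq, hT, map_add, map_neg]
  have h1 : A (A.symm x) = x := A.apply_symm_apply x
  have h2 : A (A.symm b) = b := A.apply_symm_apply b
  rw [h1, h2, neg_add_cancel_right]

lemma affP_closure {d : ℕ} (A : Fin d → X ≃ₜ+ X) (b : Fin d → X) (T : Fin d → Equiv.Perm X)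
    (hT : ∀ i x, T i x = A i x + b i) (g : Equiv.Perm X)
    (hg : g ∈ Subgroup.closure (Set.range T)) : AffP g := by
  have h : AffP g ∧ AffP g⁻¹ := by
    induction hg using Subgroup.closure_induction with
    | mem x hx =>
      obtain ⟨i, rfl⟩ := hx
      exact ⟨affP_gen (A i) (b i) _ (hT i), affP_gen_inv (A i) (b i) _ (hT i)⟩
    | one =>
      have h1 : AffP (1 : Equiv.Perm X) := fun χ => ⟨χ, 0, fun x => (add_zero _).symm⟩
      exact ⟨h1, by rw [inv_one]; exact h1⟩
    | mul x y _ _ hx hy =>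
      exact ⟨hx.1.mul hy.1, by rw [mul_inv_rev]; exact hy.2.mul hx.2⟩
    | inv x _ hx => exact ⟨hx.2, by rw [inv_inv]; exact hx.1⟩
  exact h.1

omit [AddCommGroup X] [TopologicalSpace X] [IsTopologicalAddGroup X] in
/-- The inverse of the moving element is a polynomial sequence in the generators. -/
lemma gelG_mem_PP {d m : ℕ} (T : Fin d → Equiv.Perm X) (P : Fin d → Fin m → Polynomial ℤ) :
    ∃ D, ∀ j, (fun n : ℕ => (gelG T P j (n : ℤ))⁻¹) ∈
      PP (fun i : Fin d => (⟨T i, Subgroup.subset_closure ⟨i, rfl⟩⟩ :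
        Subgroup.closure (Set.range T))) D := by
  classical
  set G := Subgroup.closure (Set.range T) with hG
  set t : Fin d → G := fun i => ⟨T i, Subgroup.subset_closure ⟨i, rfl⟩⟩ with ht
  refine ⟨∑ i, ∑ j, (P i j).natDegree, fun j => ?_⟩
  have hdeg : ∀ i j, (P i j).natDegree ≤ ∑ i, ∑ j, (P i j).natDegree := by
    intro i j
    calc (P i j).natDegree ≤ ∑ j, (P i j).natDegree :=
          Finset.single_le_sum (f := fun j => (P i j).natDegree) (fun _ _ => Nat.zero_le _)
            (Finset.mem_univ j)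
      _ ≤ _ := Finset.single_le_sum (f := fun i => ∑ j, (P i j).natDegree)
          (fun _ _ => Nat.zero_le _) (Finset.mem_univ i)
  have e : (fun n : ℕ => gelG T P j (n : ℤ)) =
      (List.ofFn fun i : Fin d => fun n : ℕ => t i ^ (P i j).eval (n : ℤ)).prod := by
    funext n
    have h1 := map_list_prod (Pi.evalMonoidHom (fun _ : ℕ => G) n)
      (List.ofFn fun i : Fin d => fun n : ℕ => t i ^ (P i j).eval (n : ℤ))
    rw [List.map_ofFn] at h1
    have h2 := map_list_prod G.subtype (List.ofFn fun i : Fin d => t i ^ (P i j).eval (n : ℤ))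
    rw [List.map_ofFn] at h2
    apply Subtype.ext
    rw [show (List.ofFn fun i : Fin d => fun n : ℕ => t i ^ (P i j).eval (n : ℤ)).prod n =
      (List.ofFn fun i : Fin d => t i ^ (P i j).eval (n : ℤ)).prod from h1]
    rw [show (((List.ofFn fun i : Fin d => t i ^ (P i j).eval (n : ℤ)).prod : G) :
      Equiv.Perm X) = (List.ofFn fun i : Fin d => T i ^ (P i j).eval (n : ℤ)).prod from h2]
    rfl
  have hp : (fun n : ℕ => gelG T P j (n : ℤ)) ∈ PP t (∑ i, ∑ j, (P i j).natDegree) := by
    rw [e]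
    apply Subgroup.list_prod_mem
    intro g hg
    rw [List.mem_ofFn] at hg
    obtain ⟨i, rfl⟩ := hg
    exact pow_mem_PP t _ i (P i j) (hdeg i j)
  exact (PP t _).inv_mem hp

omit [AddCommGroup X] [TopologicalSpace X] [IsTopologicalAddGroup X] in
lemma closure_tops {d : ℕ} (T : Fin d → Equiv.Perm X) :
    Subgroup.closure (Set.range (fun i : Fin d => (⟨T i, Subgroup.subset_closure ⟨i, rfl⟩⟩ :
        Subgroup.closure (Set.range T)))) = ⊤ := by
  have h := Subgroup.closure_closure_coe_preimage (k := Set.range T)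
  rw [← h]
  congr 1
  ext g
  constructor
  · rintro ⟨i, rfl⟩
    exact ⟨i, rfl⟩
  · rintro ⟨i, hi⟩
    exact ⟨i, Subtype.ext hi⟩

theorem orbit_alt' {d m : ℕ} (A : Fin d → X ≃ₜ+ X) (b : Fin d → X) (T : Fin d → Equiv.Perm X)
    (hT : ∀ i x, T i x = A i x + b i) [Group.IsNilpotent (Subgroup.closure (Set.range T))]
    (P : Fin d → Fin m → Polynomial ℤ) (χ : Fin m → Ch X) :
    ∃ q : ℕ, 0 < q ∧ ∀ r : ℕ,
      (∃ θ : ℕ → UnitAddCircle, (∃ k, PD ⊥ k θ) ∧ ∀ (n : ℕ) x,
        ∑ j, χ j (gel T P j ((q * n + r : ℕ) : ℤ) x) =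
        ∑ j, χ j (gel T P j (r : ℤ) x) + θ n) ∨
      (∃ (γ : ℕ → Ch X) (c : ℕ → UnitAddCircle) (s : ℕ), (∀ (n : ℕ) x,
        ∑ j, χ j (gel T P j ((q * n + r : ℕ) : ℤ) x) = γ n x + c n) ∧
        ∀ (z : Ch X) (L : ℕ) (S : Finset ℕ), (∀ n ∈ S, n < L ∧ γ n = z) →
        (S.card : ℝ) ≤ 3 * (L : ℝ) ^ (1 - (1 / 2 : ℝ) ^ s)) := by
  classical
  set G := Subgroup.closure (Set.range T) with hG
  let t : Fin d → G := fun i => ⟨T i, Subgroup.subset_closure ⟨i, rfl⟩⟩
  have hgen : Subgroup.closure (Set.range t) = ⊤ := closure_tops T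
  obtain ⟨D, hD⟩ := gelG_mem_PP T P
  let f : Fin m → Fn X := fun j x => χ j x
  let g : Fin m → ℕ → G := fun j n => (gelG T P j (n : ℤ))⁻¹
  have hg : ∀ j, g j ∈ PP t D := hD
  -- the sum as a function
  have hval : ∀ (n : ℕ) (x : X), evF x (∑ j, g j n • f j) = ∑ j, χ j (gel T P j (n : ℤ) x) := by
    intro n x
    rw [map_sum]
    apply Finset.sum_congr rfl
    intro j _
    rw [evF_apply, smul_Fn]
    change χ j ((((gelG T P j (n : ℤ))⁻¹ : G) : Equiv.Perm X)⁻¹ x) = _
    rw [Subgroup.coe_inv, inv_inv, coe_gelG]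
  obtain ⟨q, hq, hdich⟩ := dich t hgen D (cst X)
    (fun g v hv => by rw [smul_cst g v hv]; exact hv) f g hg
  refine ⟨q, hq, fun r => ?_⟩
  rcases hdich r with h | ⟨s, hs⟩
  · left
    obtain ⟨s, hs⟩ := gel_Dv T P q r
    let g' : Fin m → ℕ → G := fun j n => (gelG T P j ((q * n + r : ℕ) : ℤ))⁻¹
    have hg' : ∀ j n, g' j n = g j (q * n + r) := fun j n => rfl
    have hconst : ∀ n, ∑ j, g' j n • f j - ∑ j, g' j 0 • f j ∈ cst X := by
      intro n
      simp only [hg']
      have h1 := h n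
      rw [add_comm r (q * n)] at h1
      rw [mul_zero, zero_add]
      exact h1
    obtain ⟨k, hk⟩ := phase (Set.range t) (Set.finite_range t) hgen (cst X)
      (fun g v hv => smul_cst g v hv) f g' s hs hconst
    refine ⟨fun n => evF (0 : X) (∑ j, g' j n • f j - ∑ j, g' j 0 • f j), ⟨k, ?_⟩, ?_⟩
    · exact PD_map (C' := (⊥ : AddSubgroup UnitAddCircle)) (evF (0 : X)) (fun v hv => by
        rw [AddSubgroup.mem_bot] at hv ⊢
        rw [hv, map_zero]) hk
    · intro n x
      obtain ⟨c, hc⟩ := mem_cst.1 (hconst n)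
      have h1 := hc x
      have h2 := hc 0
      beta_reduce
      rw [h2, ← h1, map_sub]
      simp only [hg']
      rw [hval, hval, mul_zero, zero_add]
      abel
  · right
    have haff : ∀ (n : ℕ) (j : Fin m), ∃ γ : Ch X, ∃ c : UnitAddCircle, ∀ x,
        χ j (gel T P j ((q * n + r : ℕ) : ℤ) x) = γ x + c := by
      intro n j
      exact affP_closure A b T hT _ (gel_mem T P j _) (χ j)
    choose γ c hγ using haff
    have hsum : ∀ (n : ℕ) x, ∑ j, χ j (gel T P j ((q * n + r : ℕ) : ℤ) x) =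
        (∑ j, γ n j) x + ∑ j, c n j := by
      intro n x
      have h0 : (∑ j, γ n j) x = ∑ j, γ n j x := by
        have h1 : evC (∑ j, γ n j) = ∑ j, evC (γ n j) := map_sum evC _ _
        have h2 := congrFun h1 x
        rw [Finset.sum_apply] at h2
        exact h2
      rw [h0, ← Finset.sum_add_distrib]
      exact Finset.sum_congr rfl fun j _ => hγ n j x
    refine ⟨fun n => ∑ j, γ n j, fun n => ∑ j, c n j, s, hsum, ?_⟩
    intro z L S hS
    rcases S.eq_empty_or_nonempty with rfl | ⟨n0, hn0⟩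
    · simp only [Finset.card_empty, Nat.cast_zero]
      positivity
    · refine hs n0 L S fun n hn => ⟨(hS n hn).1, ?_⟩
      refine mem_cst.2 ⟨∑ j, c n j - ∑ j, c n0 j, fun x => ?_⟩
      beta_reduce
      rw [add_comm r (q * n), add_comm r (q * n0), map_sub, hval, hval, hsum, hsum]
      have h1 : (∑ j, γ n j) = z := (hS n hn).2
      have h2 : (∑ j, γ n0 j) = z := (hS n0 hn0).2
      rw [h1, h2]
      abel

end Pool.Agent.NilAff
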