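import Pool.Agent.NilAff.Defs
import Pool.Agent.NilAff.Hall

set_option autoImplicit false

/-!
# Bounded periods

Paper proof. `Γ = PP t D` acts on `M = (ℕ → V)` by `(p • u) n = p n • u n`. By `hall` (for the constant
sequences with values in `S`) there is a `Γ`-stable subgroup `B` of `M` with `Noe ⊤ B` containing the
constant sequences with values in `S`, so all `sq l` with `In (PP t D) S l`. Let `B'` be the subgroup
of `M` of all `sq l` (it is a subgroup of `B`, `Γ`-stable). The `Γ`-stable subgroups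
`V_k = {u ∈ B' | ∀ n, u (k! * n) ∈ C}` increase with `k`, so `V_k = V_K` for all `k ≥ K`;
`q = K!`. If `sq l` is in `C` on `r + h ℕ`, then `u = σ^r (sq l) = sq (l shifted)` is in `C` on `h ℕ`, so
`u ∈ V_k` for `k = max h K`, `u ∈ V_K`.
-/

namespace Pool.Agent.NilAff

variable {G V : Type*} [Group G] [AddCommGroup V] [DistribMulAction G V] {d : ℕ}

/-- The additive group of all sums of orbits. -/
private def sqG (Ps : Subgroup (ℕ → G)) (S : AddSubgroup V) : AddSubgroup (ℕ → V) where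
  carrier := {u | ∃ l, In Ps S l ∧ u = sq l}
  zero_mem' := ⟨[], fun a ha => absurd ha List.not_mem_nil, rfl⟩
  add_mem' := by
    rintro _ _ ⟨l, hl, rfl⟩ ⟨l', hl', rfl⟩
    refine ⟨l ++ l', fun a ha => ?_, ?_⟩
    · rcases List.mem_append.1 ha with h | h
      · exact hl a h
      · exact hl' a h
    · funext n
      rw [Pi.add_apply, sq_append]
  neg_mem' := by
    rintro _ ⟨l, hl, rfl⟩
    refine ⟨l.map fun a => (a.1, -a.2), fun a ha => ?_, ?_⟩
    · obtain ⟨b, hb, rfl⟩ := List.mem_map.1 ha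
      exact ⟨(hl b hb).1, S.neg_mem (hl b hb).2⟩
    · funext n
      clear hl
      induction l with
      | nil => simp
      | cons a l ih =>
        rw [List.map_cons, sq_cons, ← ih, Pi.neg_apply, Pi.neg_apply, sq_cons]
        simp only [smul_neg, neg_add]

private lemma sqG_smul (Ps : Subgroup (ℕ → G)) (S : AddSubgroup V) (p : Ps) (u : ℕ → V)
    (hu : u ∈ sqG Ps S) : p • u ∈ sqG Ps S := by
  obtain ⟨l, hl, rfl⟩ := hu
  refine ⟨l.map fun a => ((p : ℕ → G) * a.1, a.2), fun a ha => ?_, ?_⟩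
  · obtain ⟨b, hb, rfl⟩ := List.mem_map.1 ha
    exact ⟨Ps.mul_mem p.2 (hl b hb).1, (hl b hb).2⟩
  · funext n
    show (p : ℕ → G) n • sq l n = _
    clear hl
    induction l with
    | nil => simp
    | cons a l ih =>
      rw [List.map_cons, sq_cons, sq_cons, ← ih, smul_add, smul_smul]
      rfl

private lemma sqG_le (Ps : Subgroup (ℕ → G)) (S : AddSubgroup V) (B : AddSubgroup (ℕ → V))
    (hB : Stb (⊤ : Subgroup Ps) B) (hS : ∀ f ∈ S, (fun _ : ℕ => f) ∈ B) : sqG Ps S ≤ B := by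
  rintro _ ⟨l, hl, rfl⟩
  induction l with
  | nil => exact B.zero_mem
  | cons a l ih =>
    have h1 : sq (a :: l) = (⟨a.1, (hl a List.mem_cons_self).1⟩ : Ps) • (fun _ : ℕ => a.2) + sq l := by
      funext n
      rw [sq_cons]
      rfl
    rw [h1]
    exact B.add_mem (hB _ (Subgroup.mem_top _) _ (hS _ (hl a List.mem_cons_self).2))
      (ih fun b hb => hl b (List.mem_cons_of_mem _ hb))

/-- The elements of `sqG` in `C` along the multiples of `k!`. -/
private def vk (Ps : Subgroup (ℕ → G)) (S C : AddSubgroup V) (k : ℕ) : AddSubgroup (ℕ → V) where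
  carrier := {u | u ∈ sqG Ps S ∧ ∀ n, u (k.factorial * n) ∈ C}
  zero_mem' := ⟨AddSubgroup.zero_mem _, fun _ => C.zero_mem⟩
  add_mem' := fun hu hv =>
    ⟨AddSubgroup.add_mem _ hu.1 hv.1, fun n => C.add_mem (hu.2 n) (hv.2 n)⟩
  neg_mem' := fun hu => ⟨AddSubgroup.neg_mem _ hu.1, fun n => C.neg_mem (hu.2 n)⟩

theorem exists_per [Group.IsNilpotent G] (t : Fin d → G) (D : ℕ) (S C : AddSubgroup V) (hS : S.FG)
    (hC : ∀ g : G, ∀ v ∈ C, g • v ∈ C) : ∃ q, 0 < q ∧ Per (PP t D) S C q := by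
  have hn : Group.IsNilpotent (PP t D) := PP_nilp t D
  obtain ⟨T, hT, hgen⟩ := PP_fg t D
  let cst : V →+ (ℕ → V) :=
    { toFun := fun f _ => f
      map_zero' := rfl
      map_add' := fun _ _ => rfl }
  have hfg : (S.map cst).FG := by
    obtain ⟨s, hs⟩ := hS
    classical
    refine ⟨s.image cst, ?_⟩
    rw [Finset.coe_image, ← AddMonoidHom.map_closure, hs]
  obtain ⟨B, hSB, hBs, hBN⟩ := hall T hT hgen (S.map cst) hfg
  have hle : sqG (PP t D) S ≤ B := sqG_le _ _ B hBs fun f hf => hSB ⟨f, hf, rfl⟩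
  obtain ⟨K, hK⟩ := hBN (vk (PP t D) S C) (by
    intro k m hkm u hu
    refine ⟨hu.1, fun n => ?_⟩
    obtain ⟨c, hc⟩ := Nat.factorial_dvd_factorial hkm
    rw [hc, mul_assoc]
    exact hu.2 (c * n)) (fun k u hu => hle hu.1) (by
    intro k p _ u hu
    refine ⟨sqG_smul _ _ p u hu.1, fun n => ?_⟩
    exact hC ((p : ℕ → G) (k.factorial * n)) _ (hu.2 n))
  refine ⟨K.factorial, Nat.factorial_pos K, ?_⟩
  intro l hl h r hh hlC n
  set l' := l.map fun a => ((fun m => a.1 (m + r), a.2) : (ℕ → G) × V) with hl'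
  have hsq : ∀ m, sq l' m = sq l (m + r) := by
    intro m
    rw [hl']
    clear hlC hl hl'
    induction l with
    | nil => simp
    | cons a l ih => rw [List.map_cons, sq_cons, sq_cons, ih]
  have hin : In (PP t D) S l' := by
    intro a ha
    obtain ⟨b, hb, rfl⟩ := List.mem_map.1 ha
    exact ⟨shift_mem_PP t D (hl b hb).1 r, (hl b hb).2⟩
  have h1 : sq l' ∈ vk (PP t D) S C (max h K) := by
    refine ⟨⟨l', hin, rfl⟩, fun m => ?_⟩
    obtain ⟨c, hc⟩ := Nat.dvd_factorial hh (le_max_left h K)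
    rw [hsq, hc, mul_assoc, add_comm]
    exact hlC (c * m)
  rw [hK (max h K) (le_max_right h K)] at h1
  have h2 := h1.2 n
  rwa [hsq, add_comm] at h2

end Pool.Agent.NilAff
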