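import Pool.Agent.Lib.PolySeq

set_option autoImplicit false

/-!
# The group of polynomial sequences generated by `n ↦ t k ^ (n ^ i)`, `i ≤ D`
-/

namespace Pool.Agent.NilAff

open Pool.Lib.PolySeq Polynomial

variable {G : Type*} [Group G] {d : ℕ}

/-- The generators. -/
def genS (t : Fin d → G) (D : ℕ) : Set (ℕ → G) :=
  Set.range fun a : Fin d × Fin (D + 1) => fun n : ℕ => t a.1 ^ ((n : ℤ) ^ (a.2 : ℕ))

/-- The group of sequences. -/
def PP (t : Fin d → G) (D : ℕ) : Subgroup (ℕ → G) := Subgroup.closure (genS t D)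

/-- Proof: `{a : ℕ → ℤ | (fun n => t k ^ a n) ∈ PP t D}` is an additive subgroup containing
`n ↦ n ^ i`, `i ≤ D`, so all `n ↦ P.eval n = ∑ i ≤ D, P.coeff i * n ^ i`. -/
theorem pow_mem_PP (t : Fin d → G) (D : ℕ) (k : Fin d) (P : ℤ[X]) (hP : P.natDegree ≤ D) :
    (fun n : ℕ => t k ^ P.eval (n : ℤ)) ∈ PP t D := by
  have key : ∀ s : Finset ℕ, s ⊆ Finset.range (D + 1) →
      (fun n : ℕ => t k ^ (∑ i ∈ s, P.coeff i * (n : ℤ) ^ i)) ∈ PP t D := by
    intro s
    induction s using Finset.induction_on with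
    | empty =>
      intro _
      have e : (fun n : ℕ => t k ^ (∑ i ∈ (∅ : Finset ℕ), P.coeff i * (n : ℤ) ^ i)) = 1 := by
        funext n
        simp
      rw [e]
      exact (PP t D).one_mem
    | insert a s ha ih =>
      intro hs
      have e : (fun n : ℕ => t k ^ (∑ i ∈ insert a s, P.coeff i * (n : ℤ) ^ i)) =
          (fun n : ℕ => t k ^ ((n : ℤ) ^ a)) ^ (P.coeff a) *
            (fun n : ℕ => t k ^ (∑ i ∈ s, P.coeff i * (n : ℤ) ^ i)) := by
        funext n
        rw [Finset.sum_insert ha, Pi.mul_apply, Pi.pow_apply, zpow_add, ← zpow_mul,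
          mul_comm (P.coeff a)]
      rw [e]
      have ha' : a < D + 1 := Finset.mem_range.1 (hs (Finset.mem_insert_self a s))
      refine (PP t D).mul_mem ((PP t D).zpow_mem (Subgroup.subset_closure ?_) _)
        (ih fun i hi => hs (Finset.mem_insert_of_mem hi))
      exact ⟨(k, ⟨a, ha'⟩), rfl⟩
  have h := key (Finset.range (D + 1)) (Finset.Subset.refl _)
  have e : (fun n : ℕ => t k ^ P.eval (n : ℤ)) =
      fun n : ℕ => t k ^ (∑ i ∈ Finset.range (D + 1), P.coeff i * (n : ℤ) ^ i) := by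
    funext n
    rw [Polynomial.eval_eq_sum_range' (Nat.lt_succ_of_le hP)]
  rw [e]
  exact h

/-- Proof: closure induction for `g` in the group generated by the `t k`; `t k ^ (n ^ 0) = t k`. -/
theorem const_mem_PP (t : Fin d → G) (hgen : Subgroup.closure (Set.range t) = ⊤) (D : ℕ) (g : G) :
    (fun _ : ℕ => g) ∈ PP t D := by
  have hg : g ∈ Subgroup.closure (Set.range t) := by
    rw [hgen]
    exact Subgroup.mem_top g
  induction hg using Subgroup.closure_induction with
  | mem x hx =>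
    obtain ⟨k, rfl⟩ := hx
    have h := pow_mem_PP t D k 1 (by simp)
    have e : (fun n : ℕ => t k ^ (1 : ℤ[X]).eval (n : ℤ)) = fun _ : ℕ => t k := by
      funext n
      simp
    rwa [e] at h
  | one => exact (PP t D).one_mem
  | mul x y _ _ hx hy => exact (PP t D).mul_mem hx hy
  | inv x _ hx => exact (PP t D).inv_mem hx

/-- Proof: closure induction; `(n + r) ^ i` is a polynomial of degree `i` in `n`: `pow_mem_PP`. -/
theorem shift_mem_PP (t : Fin d → G) (D : ℕ) {p : ℕ → G} (hp : p ∈ PP t D) (r : ℕ) :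
    (fun n => p (n + r)) ∈ PP t D := by
  unfold PP at hp
  induction hp using Subgroup.closure_induction with
  | mem x hx =>
    obtain ⟨a, rfl⟩ := hx
    have h := pow_mem_PP t D a.1 ((X + C (r : ℤ)) ^ (a.2 : ℕ)) (by
      refine (natDegree_pow_le).trans ?_
      rw [natDegree_X_add_C, mul_one]
      exact Nat.lt_succ_iff.1 a.2.2)
    have e : (fun n : ℕ => t a.1 ^ ((X + C (r : ℤ)) ^ (a.2 : ℕ) : ℤ[X]).eval (n : ℤ)) =
        fun n : ℕ => t a.1 ^ (((n + r : ℕ) : ℤ) ^ (a.2 : ℕ)) := by
      funext n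
      simp
    rwa [e] at h
  | one => exact (PP t D).one_mem
  | mul x y _ _ hx hy => exact (PP t D).mul_mem hx hy
  | inv x _ hx => exact (PP t D).inv_mem hx

theorem PP_le_monos (t : Fin d → G) (D : ℕ) : PP t D ≤ Subgroup.closure (monos G D) := by
  unfold PP
  apply Subgroup.closure_mono
  rintro _ ⟨a, rfl⟩
  refine ⟨t a.1, X ^ (a.2 : ℕ), ?_, ?_⟩
  · rw [natDegree_X_pow]
    exact Nat.lt_succ_iff.1 a.2.2
  · funext n
    simp

/-- `PP t D`, as a group, is generated by a finite set. -/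
theorem PP_fg (t : Fin d → G) (D : ℕ) :
    ∃ S : Set (PP t D), S.Finite ∧ Subgroup.closure S = ⊤ := by
  refine ⟨((↑) : PP t D → (ℕ → G)) ⁻¹' genS t D, ?_, Subgroup.closure_closure_coe_preimage⟩
  exact (Set.finite_range _).preimage (Subtype.val_injective.injOn)

/-- Proof: `ℕ → G` is nilpotent (`Group.isNilpotent_pi_of_bounded_class` or directly from the lower
central series) and subgroups of nilpotent groups are nilpotent. -/
theorem PP_nilp [Group.IsNilpotent G] (t : Fin d → G) (D : ℕ) : Group.IsNilpotent (PP t D) := by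
  have : Group.IsNilpotent (ℕ → G) :=
    Group.isNilpotent_pi_of_bounded_class (Gs := fun _ : ℕ => G) (Group.nilpotencyClass G)
      (fun _ => le_rfl)
  infer_instance

end Pool.Agent.NilAff
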